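import Pool.Agent.N557.QW.Base

/-!
# Direct sums of operators on `ℓ²(Σ b, X b)`
-/

set_option autoImplicit false

namespace Pool.Agent.N557.QW

open Pool.Agent.H494R3.GT

noncomputable section

variable {P : Type}

lemma mem2 {f : P → ℂ} : Memℓp f 2 ↔ Summable fun x => ‖f x‖ ^ 2 := by
  rw [memℓp_gen_iff (by norm_num)]
  simp

lemma sum2 (v : L2 P) : Summable fun x => ‖v x‖ ^ 2 := mem2.1 (lp.memℓp v)

lemma norm2 (v : L2 P) : ‖v‖ ^ 2 = ∑' x, ‖v x‖ ^ 2 := by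
  have h := lp.norm_rpow_eq_tsum (p := 2) (E := fun _ : P => ℂ) (by norm_num) v
  have e : ((2 : ENNReal).toReal) = ((2 : ℕ) : ℝ) := by norm_num
  rw [e] at h
  simpa only [Real.rpow_natCast] using h

variable {ι : Type} {X : ι → Type}

/-- the component of a vector in the block `b` -/
def rs (b : ι) (v : L2 (Σ b, X b)) : L2 (X b) :=
  ⟨fun p => v ⟨b, p⟩, mem2.2 ((sum2 v).comp_injective sigma_mk_injective)⟩

lemma rs_apply (b : ι) (v : L2 (Σ b, X b)) (p : X b) : rs b v p = v ⟨b, p⟩ := rfl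

lemma rs_add (b : ι) (v w : L2 (Σ b, X b)) : rs b (v + w) = rs b v + rs b w := by
  ext p; rfl

lemma rs_smul (b : ι) (c : ℂ) (v : L2 (Σ b, X b)) : rs b (c • v) = c • rs b v := by
  ext p; rfl

lemma rs_norm (v : L2 (Σ b, X b)) :
    Summable (fun b => ‖rs b v‖ ^ 2) ∧ ∑' b, ‖rs b v‖ ^ 2 = ‖v‖ ^ 2 := by
  have h := sum2 v
  have h1 : ∀ b, ‖rs b v‖ ^ 2 = ∑' p, ‖v ⟨b, p⟩‖ ^ 2 := fun b => norm2 (rs b v)
  simp only [h1]
  refine ⟨h.sigma, ?_⟩
  rw [norm2, h.tsum_sigma]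

lemma ds_mem (T : ∀ b, L2 (X b) →L[ℂ] L2 (X b)) (M : ℝ) (hM : ∀ b, ‖T b‖ ≤ M)
    (v : L2 (Σ b, X b)) :
    Memℓp (fun x : Σ b, X b => (T x.1 (rs x.1 v)) x.2) 2 ∧
      ∑' x : Σ b, X b, ‖(T x.1 (rs x.1 v)) x.2‖ ^ 2 ≤ (M * ‖v‖) ^ 2 := by
  have key : ∀ b, ∑' p, ‖(T b (rs b v)) p‖ ^ 2 ≤ M ^ 2 * ‖rs b v‖ ^ 2 := by
    intro b
    rw [← norm2, ← mul_pow]
    refine pow_le_pow_left₀ (norm_nonneg _) ?_ 2
    exact (T b).le_of_opNorm_le (hM b) _
  have hs : Summable fun x : Σ b, X b => ‖(T x.1 (rs x.1 v)) x.2‖ ^ 2 := by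
    rw [summable_sigma_of_nonneg (fun _ => by positivity)]
    refine ⟨fun b => sum2 (T b (rs b v)), ?_⟩
    exact Summable.of_nonneg_of_le (fun b => tsum_nonneg fun _ => by positivity) key
      ((rs_norm v).1.mul_left _)
  refine ⟨mem2.2 hs, ?_⟩
  rw [hs.tsum_sigma, mul_pow, ← (rs_norm v).2, ← tsum_mul_left]
  exact hs.sigma.tsum_le_tsum key ((rs_norm v).1.mul_left _)

/-- The direct sum of uniformly bounded operators. -/
def dsum (T : ∀ b, L2 (X b) →L[ℂ] L2 (X b)) (M : ℝ) (hM : ∀ b, ‖T b‖ ≤ M) (h0 : 0 ≤ M) :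
    L2 (Σ b, X b) →L[ℂ] L2 (Σ b, X b) :=
  LinearMap.mkContinuous
    { toFun := fun v => ⟨fun x => (T x.1 (rs x.1 v)) x.2, (ds_mem T M hM v).1⟩
      map_add' := fun v w => by
        ext x
        change (T x.1 (rs x.1 (v + w))) x.2 = (T x.1 (rs x.1 v)) x.2 + (T x.1 (rs x.1 w)) x.2
        rw [rs_add, map_add]; rfl
      map_smul' := fun c v => by
        ext x
        change (T x.1 (rs x.1 (c • v))) x.2 = c * (T x.1 (rs x.1 v)) x.2
        rw [rs_smul, map_smul]; rfl } M (fun v => by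
      refine (sq_le_sq₀ (norm_nonneg _) (by positivity)).1 ?_
      rw [norm2]
      exact (ds_mem T M hM v).2)

lemma dsum_apply (T : ∀ b, L2 (X b) →L[ℂ] L2 (X b)) (M : ℝ) (hM : ∀ b, ‖T b‖ ≤ M) (h0 : 0 ≤ M)
    (v : L2 (Σ b, X b)) (x : Σ b, X b) :
    dsum T M hM h0 v x = (T x.1 (rs x.1 v)) x.2 := rfl

lemma dsum_norm (T : ∀ b, L2 (X b) →L[ℂ] L2 (X b)) (M : ℝ) (hM : ∀ b, ‖T b‖ ≤ M) (h0 : 0 ≤ M) :
    ‖dsum T M hM h0‖ ≤ M := LinearMap.mkContinuous_norm_le _ h0 _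

lemma rs_dsum (T : ∀ b, L2 (X b) →L[ℂ] L2 (X b)) (M : ℝ) (hM : ∀ b, ‖T b‖ ≤ M) (h0 : 0 ≤ M)
    (v : L2 (Σ b, X b)) (b : ι) : rs b (dsum T M hM h0 v) = T b (rs b v) := by
  ext p; rfl

lemma rs_ext {v w : L2 (Σ b, X b)} (h : ∀ b, rs b v = rs b w) : v = w := by
  ext ⟨b, p⟩
  rw [← rs_apply, ← rs_apply, h]

lemma rs_dl_self (b : ι) (p : X b) : rs b (dl (⟨b, p⟩ : Σ b, X b)) = dl p := by
  classical
  ext q
  rw [rs_apply, ← inner_dl, ← inner_dl, dl_inner, dl_inner]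
  simp

lemma rs_dl_ne {b b' : ι} (h : b ≠ b') (p : X b') : rs b (dl (⟨b', p⟩ : Σ b, X b)) = 0 := by
  classical
  ext q
  rw [rs_apply, ← inner_dl, dl_inner, if_neg]
  · rfl
  · intro h2
    exact h (congrArg Sigma.fst h2)

/-- the inclusion of a block -/
def ij (b : ι) : L2 (X b) →ₗᵢ[ℂ] L2 (Σ b, X b) :=
  (dl_orthonormal (f := fun p : X b => (⟨b, p⟩ : Σ b, X b))
    sigma_mk_injective).orthogonalFamily.linearIsometry

lemma ij_dl (b : ι) (p : X b) : ij b (dl p) = dl (⟨b, p⟩ : Σ b, X b) := by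
  classical
  rw [ij, dl, dl]
  simp [dl]

/-- `rs` as a continuous linear map. -/
def rsL (b : ι) : L2 (Σ b, X b) →L[ℂ] L2 (X b) :=
  LinearMap.mkContinuous
    { toFun := rs b
      map_add' := rs_add b
      map_smul' := rs_smul b } 1 (fun v => by
      rw [one_mul]
      refine (sq_le_sq₀ (norm_nonneg _) (norm_nonneg _)).1 ?_
      rw [← (rs_norm v).2]
      exact (rs_norm v).1.le_tsum b (fun _ _ => by positivity))

lemma rsL_apply (b : ι) (v : L2 (Σ b, X b)) : rsL b v = rs b v := rfl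

lemma rsL_norm (b : ι) : ‖rsL (X := X) b‖ ≤ 1 := LinearMap.mkContinuous_norm_le _ zero_le_one _

lemma adj_rsL (b : ι) :
    ContinuousLinearMap.adjoint (rsL (X := X) b) = (ij b).toContinuousLinearMap := by
  have h : ContinuousLinearMap.adjoint ((ij (X := X) b).toContinuousLinearMap) = rsL b := by
    ext1 v
    refine vec_ext fun p => ?_
    rw [← inner_dl, ContinuousLinearMap.adjoint_inner_right, rsL_apply, rs_apply]
    change inner ℂ (ij b (dl p)) v = _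
    rw [ij_dl, inner_dl]
  rw [← h, ContinuousLinearMap.adjoint_adjoint]

lemma inner_ij (b : ι) (v : L2 (X b)) (w : L2 (Σ b, X b)) :
    inner ℂ (ij b v) w = inner ℂ v (rs b w) := by
  have := ContinuousLinearMap.adjoint_inner_left (rsL (X := X) b) w v
  rw [adj_rsL] at this
  exact this

lemma rs_ij (b : ι) (v : L2 (X b)) : rs b (ij b v) = v := by
  refine vec_ext fun p => ?_
  rw [rs_apply, ← inner_dl, ← inner_dl, ← ij_dl, LinearIsometry.inner_map_map]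

lemma inner_sigma (v w : L2 (Σ b, X b)) :
    HasSum (fun b => inner ℂ (rs b v) (rs b w)) (inner ℂ v w) := by
  have h := lp.hasSum_inner (𝕜 := ℂ) v w
  refine h.sigma fun b => ?_
  exact lp.hasSum_inner (𝕜 := ℂ) (rs b v) (rs b w)

lemma rs_ij_ne {b b' : ι} (h : b' ≠ b) (v : L2 (X b)) : rs b' (ij b v) = 0 := by
  refine vec_ext fun q => ?_
  have h1 : inner ℂ (ij b v) (dl (⟨b', q⟩ : Σ b, X b)) = 0 := by
    rw [inner_ij, rs_dl_ne (Ne.symm h), inner_zero_right]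
  have h2 : inner ℂ (dl (⟨b', q⟩ : Σ b, X b)) (ij b v) = 0 := by
    rw [← inner_conj_symm, h1, map_zero]
  rw [inner_dl] at h2
  exact h2

lemma dsum_dl (T : ∀ b, L2 (X b) →L[ℂ] L2 (X b)) (M : ℝ) (hM : ∀ b, ‖T b‖ ≤ M) (h0 : 0 ≤ M)
    (b : ι) (p : X b) : dsum T M hM h0 (dl ⟨b, p⟩) = ij b (T b (dl p)) := by
  apply rs_ext
  intro b'
  rw [rs_dsum]
  by_cases h : b' = b
  · subst h
    rw [rs_dl_self, rs_ij]
  · rw [rs_dl_ne h, map_zero, rs_ij_ne h]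

end

end Pool.Agent.N557.QW
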