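import Pool.Agent.H494R3.GT.Ops

/-!
# Group von Neumann algebras on `ℓ²(G)`: definitions
-/

set_option autoImplicit false

namespace Pool.Agent.N557.QW

open Pool.Agent.H494R3.GT

noncomputable section

variable {G : Type} [Group G]

/-- left translation: `dl s ↦ dl (g s)` -/
def lam (g : G) : L2 G →L[ℂ] L2 G := UU (Equiv.mulLeft g)

/-- right translation: `dl s ↦ dl (s g)` -/
def rgt (g : G) : L2 G →L[ℂ] L2 G := UU (Equiv.mulRight g)

lemma lam_dl (g s : G) : lam g (dl s) = dl (g * s) := by
  rw [lam, UU_dl]; rfl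

lemma rgt_dl (g s : G) : rgt g (dl s) = dl (s * g) := by
  rw [rgt, UU_dl]; rfl

lemma star_rgt (g : G) : star (rgt g) = rgt g⁻¹ := by
  rw [rgt, star_UU, rgt]
  rfl

lemma star_lam (g : G) : star (lam g) = lam g⁻¹ := by
  rw [lam, star_UU, lam]
  rfl

lemma lam_one : lam (1 : G) = 1 := op_ext fun s => by rw [lam_dl, one_mul]; rfl

lemma lam_mul (g h : G) : lam (g * h) = lam g * lam h := op_ext fun s => by
  rw [mul_ap, lam_dl, lam_dl, lam_dl, mul_assoc]

lemma lam_rgt (g h : G) : lam g * rgt h = rgt h * lam g := op_ext fun s => by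
  rw [mul_ap, mul_ap, lam_dl, rgt_dl, rgt_dl, lam_dl, mul_assoc]

/-- The group von Neumann algebra `L(G)`: the commutant of the right translations. -/
def LG (G : Type) [Group G] : VonNeumannAlgebra (L2 G) where
  toStarSubalgebra := StarSubalgebra.centralizer ℂ (Set.range (rgt : G → L2 G →L[ℂ] L2 G))
  centralizer_centralizer' := by
    change Set.centralizer (Set.centralizer (Set.centralizer _)) = Set.centralizer _
    exact Set.centralizer_centralizer_centralizer _

lemma mem_LG {x : L2 G →L[ℂ] L2 G} : x ∈ LG G ↔ ∀ g : G, rgt g * x = x * rgt g := by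
  change x ∈ Set.centralizer _ ↔ _
  rw [Set.mem_centralizer_iff]
  constructor
  · intro h g
    exact h _ (Or.inl ⟨g, rfl⟩)
  · rintro h m (⟨g, rfl⟩ | ⟨g, hg⟩)
    · exact h g
    · have : m = rgt g⁻¹ := by
        rw [← star_rgt, hg, star_star]
      rw [this]; exact h _

/-- The coefficient of `x ∈ L(G)` at `g`. -/
def cf (x : L2 G →L[ℂ] L2 G) (g : G) : ℂ := inner ℂ (dl g) (x (dl 1))

lemma mem_LG_iff {x : L2 G →L[ℂ] L2 G} :
    x ∈ LG G ↔ ∀ s t : G, inner ℂ (dl t) (x (dl s)) = cf x (t * s⁻¹) := by
  rw [mem_LG]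
  constructor
  · intro h s t
    have h1 : x (dl s) = rgt s (x (dl 1)) := by
      have := congrArg (fun y : L2 G →L[ℂ] L2 G => y (dl 1)) (h s)
      simp only [mul_ap, rgt_dl, one_mul] at this
      exact this.symm
    rw [h1, ← star_star (rgt s), star_rgt, ContinuousLinearMap.star_eq_adjoint,
      ContinuousLinearMap.adjoint_inner_right, rgt_dl]
    rfl
  · intro h g
    apply op_ext_inner
    intro t s
    rw [mul_ap, mul_ap, rgt_dl, h, ← star_star (rgt g), star_rgt,
      ContinuousLinearMap.star_eq_adjoint, ContinuousLinearMap.adjoint_inner_right, rgt_dl, h]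
    congr 1
    group

lemma lam_mem (g : G) : lam g ∈ LG G := mem_LG.2 fun h => (lam_rgt g h).symm

/-- The right coset `K c`. -/
def rc (K : Subgroup G) (c : G) : Set G := {s | s * c⁻¹ ∈ K}

/-- The von Neumann algebra of a subgroup `K ≤ G` acting on `ℓ²(G)`: the commutant of the right
translations and of the projections onto `ℓ²(K c)`. -/
def LK (K : Subgroup G) : VonNeumannAlgebra (L2 G) where
  toStarSubalgebra := StarSubalgebra.centralizer ℂ
    (Set.range (rgt : G → L2 G →L[ℂ] L2 G) ∪ Set.range (fun c : G => MM (rc K c)))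
  centralizer_centralizer' := by
    change Set.centralizer (Set.centralizer (Set.centralizer _)) = Set.centralizer _
    exact Set.centralizer_centralizer_centralizer _

end

end Pool.Agent.N557.QW
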