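import Pool.Agent.N859.QW.Defs2

/-!
# Definitions for the final statement: tracial von Neumann algebras, amalgamated free products
-/

set_option autoImplicit false

namespace Pool.Agent.N557.QWX

/-- The bounded operators on a Hilbert space. -/
abbrev Op (H : Type) [NormedAddCommGroup H] [InnerProductSpace ℂ H] : Type := H →L[ℂ] H

variable {H K : Type} [NormedAddCommGroup H] [InnerProductSpace ℂ H] [CompleteSpace H]
  [NormedAddCommGroup K] [InnerProductSpace ℂ K] [CompleteSpace K]

/-- The vector functional `x ↦ ⟨ξ, x ξ⟩`. -/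
noncomputable def tr (ξ : H) (x : Op H) : ℂ := inner ℂ ξ (x ξ)

/-- The vector state `tr ξ : x ↦ ⟨ξ, x ξ⟩` of the von Neumann algebra `N` (which is normal) is a
faithful tracial state. -/
structure IsTracial (N : VonNeumannAlgebra H) (ξ : H) : Prop where
  unit : ‖ξ‖ = 1
  tracial : ∀ x ∈ N, ∀ y ∈ N, tr ξ (x * y) = tr ξ (y * x)
  faithful : ∀ x ∈ N, tr ξ (star x * x) = 0 → x = 0

/-- `f` is a unital `*`-homomorphism of the von Neumann algebra `A` to the von Neumann algebra `M`
(only the values of `f` on `A` matter). -/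
structure IsHom (A : VonNeumannAlgebra H) (M : VonNeumannAlgebra K) (f : Op H → Op K) : Prop where
  mem : ∀ x ∈ A, f x ∈ M
  one : f 1 = 1
  add : ∀ x ∈ A, ∀ y ∈ A, f (x + y) = f x + f y
  smul : ∀ c : ℂ, ∀ x ∈ A, f (c • x) = c • f x
  mul : ∀ x ∈ A, ∀ y ∈ A, f (x * y) = f x * f y
  star : ∀ x ∈ A, f (star x) = star (f x)

/-- `E_B(a) = 0` for the trace preserving conditional expectation `E_B` onto `B`: this means
`τ(b a) = 0` for all `b` in `B`, where `τ` is the trace `x ↦ ⟨ξ, x ξ⟩`. -/
def Centred (B : VonNeumannAlgebra H) (ξ : H) (a : Op H) : Prop := ∀ b ∈ B, tr ξ (b * a) = 0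

/-- The tracial von Neumann algebra `(M, ⟨η, · η⟩)` with the embeddings `π 0`, `π 1` of `A` is the
von Neumann algebra amalgamated free product of two copies of `(A, ⟨ξ, · ξ⟩)` over `B`: the `π i`
are trace preserving unital `*`-homomorphisms, agree on `B`, their images generate `M`, and are free
with amalgamation over `B`. -/
structure IsAmalgFreeProd (A B : VonNeumannAlgebra H) (ξ : H) (M : VonNeumannAlgebra K) (η : K)
    (π : Fin 2 → Op H → Op K) : Prop where
  hom : ∀ i, IsHom A M (π i)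
  generates : ∀ N : VonNeumannAlgebra K, (∀ i, ∀ a ∈ A, π i a ∈ N) → M ≤ N
  trace : ∀ i, ∀ a ∈ A, tr η (π i a) = tr ξ a
  agree : ∀ b ∈ B, π 0 b = π 1 b
  free : ∀ (n : ℕ) (i : Fin (n + 1) → Fin 2) (a : Fin (n + 1) → Op H),
    (∀ j : Fin n, i j.castSucc ≠ i j.succ) → (∀ j, a j ∈ A) → (∀ j, Centred B ξ (a j)) →
    tr η (List.ofFn fun j => π (i j) (a j)).prod = 0

end Pool.Agent.N557.QWX
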