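import Pool.Agent.N557.QW.Main3
import Pool.Agent.N557.QW.Fin
import Pool.Agent.N859.QW.Conv

/-!
# The main theorem with the short definitions
-/

set_option autoImplicit false

namespace Pool.Agent.N557.QWX

open Pool.Agent.N859 (QX.QWEP QX.qwep_iff)
open Pool.Agent.N557 (QW.IsTracial QW.IsAmalgFreeProd)

variable {H K : Type} [NormedAddCommGroup H] [InnerProductSpace ℂ H] [CompleteSpace H]
  [NormedAddCommGroup K] [InnerProductSpace ℂ K] [CompleteSpace K]

theorem tracial_of {N : VonNeumannAlgebra H} {ξ : H} (h : QW.IsTracial N ξ) : IsTracial N ξ where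
  unit := h.unit
  tracial x hx y hy := h.tracial x hx y hy
  faithful x hx hxx := by
    refine h.faithful x hx ?_
    have h1 : inner ℂ (x ξ) (x ξ) = 0 := by
      rw [← ContinuousLinearMap.adjoint_inner_right]
      exact hxx
    exact inner_self_eq_zero.1 h1

theorem le_of_centralizer {S : Set (Op K)} {M N : VonNeumannAlgebra K}
    (hM : Set.centralizer (Set.centralizer S) = (M : Set (Op K))) (hS : S ⊆ N) : M ≤ N := by
  intro x hx
  have h1 : x ∈ Set.centralizer (Set.centralizer S) := by rw [hM]; exact hx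
  have h2 : Set.centralizer (Set.centralizer (N : Set (Op K))) = N := N.centralizer_centralizer
  have h3 : x ∈ Set.centralizer (Set.centralizer (N : Set (Op K))) :=
    Set.centralizer_subset (Set.centralizer_subset hS) h1
  rw [h2] at h3
  exact h3

open Classical in
/-- extension by zero -/
noncomputable def ext (A : VonNeumannAlgebra H) (π : A.toStarSubalgebra →⋆ₐ[ℂ] (K →L[ℂ] K))
    (x : Op H) : Op K := if hx : x ∈ A.toStarSubalgebra then π ⟨x, hx⟩ else 0

theorem ext_mem {A : VonNeumannAlgebra H} {π : A.toStarSubalgebra →⋆ₐ[ℂ] (K →L[ℂ] K)}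
    {x : Op H} (hx : x ∈ A.toStarSubalgebra) : ext A π x = π ⟨x, hx⟩ := dif_pos hx

theorem isHom_ext {A : VonNeumannAlgebra H} {M : VonNeumannAlgebra K}
    {π : A.toStarSubalgebra →⋆ₐ[ℂ] (K →L[ℂ] K)} (hπ : ∀ a, π a ∈ M) : IsHom A M (ext A π) where
  mem x hx := by rw [ext_mem hx]; exact hπ _
  one := by
    rw [ext_mem (one_mem A.toStarSubalgebra)]
    have : (⟨1, one_mem A.toStarSubalgebra⟩ : A.toStarSubalgebra) = 1 := rfl
    rw [this, map_one]
  add x hx y hy := by
    have hx' : x ∈ A.toStarSubalgebra := hx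
    have hy' : y ∈ A.toStarSubalgebra := hy
    rw [ext_mem hx', ext_mem hy', ext_mem (add_mem hx' hy')]
    have : (⟨x + y, add_mem hx' hy'⟩ : A.toStarSubalgebra) = ⟨x, hx'⟩ + ⟨y, hy'⟩ := rfl
    rw [this, map_add]
  smul c x hx := by
    have hx' : x ∈ A.toStarSubalgebra := hx
    rw [ext_mem hx', ext_mem (SMulMemClass.smul_mem c hx')]
    have : (⟨c • x, SMulMemClass.smul_mem c hx'⟩ : A.toStarSubalgebra) = c • ⟨x, hx'⟩ := rfl
    rw [this, map_smul]
  mul x hx y hy := by
    have hx' : x ∈ A.toStarSubalgebra := hx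
    have hy' : y ∈ A.toStarSubalgebra := hy
    rw [ext_mem hx', ext_mem hy', ext_mem (mul_mem hx' hy')]
    have : (⟨x * y, mul_mem hx' hy'⟩ : A.toStarSubalgebra) = ⟨x, hx'⟩ * ⟨y, hy'⟩ := rfl
    rw [this, map_mul]
  star x hx := by
    have hx' : x ∈ A.toStarSubalgebra := hx
    rw [ext_mem hx', ext_mem (star_mem hx')]
    have : (⟨Star.star x, star_mem hx'⟩ : A.toStarSubalgebra) = Star.star ⟨x, hx'⟩ := rfl
    rw [this, map_star]

theorem afp_of {A B : VonNeumannAlgebra H} {ξ : H} {M : VonNeumannAlgebra K} {η : K}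
    {π : Fin 2 → A.toStarSubalgebra →⋆ₐ[ℂ] (K →L[ℂ] K)} (hBA : B ≤ A)
    (h : QW.IsAmalgFreeProd A B ξ M η π) : IsAmalgFreeProd A B ξ M η (fun i => ext A (π i)) where
  hom i := isHom_ext (h.mem i)
  generates N hN := by
    refine le_of_centralizer h.generates ?_
    rintro _ ⟨_, ⟨i, rfl⟩, ⟨a, rfl⟩⟩
    have h1 := hN i a.1 a.2
    rw [ext_mem a.2] at h1
    exact h1
  trace i a ha := by
    rw [ext_mem (show a ∈ A.toStarSubalgebra from ha)]
    exact h.trace i ⟨a, ha⟩
  agree b hb := by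
    have hb' : b ∈ A.toStarSubalgebra := hBA hb
    show ext A (π 0) b = ext A (π 1) b
    rw [ext_mem hb', ext_mem hb']
    exact h.agree ⟨b, hb'⟩ hb
  free n i a hi ha hc := by
    have h1 := h.free n i (fun j => ⟨a j, ha j⟩) hi (fun j b hb => hc j b hb)
    have h2 : (fun j => ext A (π (i j)) (a j)) = fun j => π (i j) ⟨a j, ha j⟩ := by
      funext j
      exact ext_mem (show a j ∈ A.toStarSubalgebra from ha j)
    show tr η (List.ofFn fun j => ext A (π (i j)) (a j)).prod = 0
    rw [h2]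
    exact h1

/-- The main theorem with the short definitions. -/
theorem main' : ¬ ∀ (H : Type) [NormedAddCommGroup H] [InnerProductSpace ℂ H] [CompleteSpace H]
    [TopologicalSpace.SeparableSpace H] (A B : VonNeumannAlgebra H) (ξ : H),
    IsTracial A ξ → B ≤ A → QX.QWEP A → QX.QWEP B →
    ∀ (K : Type) [NormedAddCommGroup K] [InnerProductSpace ℂ K] [CompleteSpace K]
      (M : VonNeumannAlgebra K) (η : K) (π : Fin 2 → Op H → Op K),
      IsTracial M η → IsAmalgFreeProd A B ξ M η π → QX.QWEP M := by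
  intro hall
  obtain ⟨H, _, _, _, A, B, ξ, hsep, hA, hBA, hqA, hqB, ⟨K, _, _, _, M, η, π, hM, hafp⟩, hnot⟩ :=
    Pool.Agent.N557.QW.main
  exact hnot K M η π hM hafp ((QX.qwep_iff M).1 (hall H A B ξ (tracial_of hA) hBA
    ((QX.qwep_iff A).2 hqA) ((QX.qwep_iff B).2 hqB) K M η _ (tracial_of hM) (afp_of hBA hafp)))

end Pool.Agent.N557.QWX
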