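import Pool.Agent.N557.QW.Stm

/-! (written by helper721, adapted to the complex form of `UCP`) -/

/-! # Project QWP: completely positive maps in the sense of Mathlib (CPC) -/

set_option autoImplicit false
set_option maxHeartbeats 400000

namespace Pool.Agent.N557.QW.LCPC

open Pool.Agent.N557.QW
open scoped ComplexOrder CStarAlgebra

noncomputable section

/-- CPC for star-preserving maps. -/
def S_CPC' : Prop :=
  ∀ (H K : Type) [NormedAddCommGroup H] [InnerProductSpace ℂ H] [CompleteSpace H]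
    [NormedAddCommGroup K] [InnerProductSpace ℂ K] [CompleteSpace K]
    (Φ : (H →L[ℂ] H) →ₗ[ℂ] (K →L[ℂ] K)), UCP Φ → (∀ x, Φ (star x) = star (Φ x)) →
    ∃ Φ' : (H →L[ℂ] H) →CP (K →L[ℂ] K), ∀ x, Φ' x = Φ x

theorem square (hpos : S_POS) {H K : Type} [NormedAddCommGroup H] [InnerProductSpace ℂ H]
    [CompleteSpace H] [NormedAddCommGroup K] [InnerProductSpace ℂ K] [CompleteSpace K]
    (Φ : (H →L[ℂ] H) →ₗ[ℂ] (K →L[ℂ] K)) (hΦ : UCP Φ) (hstar : ∀ x, Φ (star x) = star (Φ x))
    {k : ℕ} (N : CStarMatrix (Fin k) (Fin k) (H →L[ℂ] H)) :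
    0 ≤ (star N * N).map Φ := by
  set M : CStarMatrix (Fin k) (Fin k) (H →L[ℂ] H) := star N * N with hN
  have hMij : ∀ i j, M i j = ∑ l, star (N l i) * N l j := by
    intro i j
    rw [hN, CStarMatrix.mul_apply]
    rfl
  have hMs : ∀ i j, star (M i j) = M j i := by
    intro i j
    rw [hMij, hMij, star_sum]
    refine Finset.sum_congr rfl fun l _ => ?_
    rw [star_mul, star_star]
  obtain ⟨R, -, hR⟩ := hpos K ⊤ (by
      have : ((⊤ : StarSubalgebra ℂ (K →L[ℂ] K)) : Set (K →L[ℂ] K)) = Set.univ := rfl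
      rw [this]
      exact isClosed_univ) k (fun i j => Φ (M i j)) (fun i j => StarSubalgebra.mem_top)
    (fun i j => by rw [← hstar, hMs]) (fun w => by
      have e : ∀ i j, inner ℂ (w i) (Φ (M i j) (w j)) =
          ∑ l, inner ℂ (w i) (Φ (star (N l i) * N l j) (w j)) := by
        intro i j
        rw [hMij, map_sum, sum_apply, inner_sum]
      have h1 : ∑ i, ∑ j, inner ℂ (w i) (Φ (M i j) (w j)) =
          ∑ l, ∑ i, ∑ j, inner ℂ (w i) (Φ (star (N l i) * N l j) (w j)) := by
        calc ∑ i, ∑ j, inner ℂ (w i) (Φ (M i j) (w j))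
            = ∑ i, ∑ j, ∑ l, inner ℂ (w i) (Φ (star (N l i) * N l j) (w j)) :=
              Finset.sum_congr rfl fun i _ => Finset.sum_congr rfl fun j _ => e i j
          _ = ∑ i, ∑ l, ∑ j, inner ℂ (w i) (Φ (star (N l i) * N l j) (w j)) :=
              Finset.sum_congr rfl fun i _ => Finset.sum_comm
          _ = _ := Finset.sum_comm
      rw [h1, Complex.re_sum]
      exact Finset.sum_nonneg fun l _ => (Complex.nonneg_iff.1 (hΦ.cp k (fun i => N l i) w)).1)
  have hmap : M.map Φ = star (CStarMatrix.ofMatrix (Matrix.of R)) *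
      CStarMatrix.ofMatrix (Matrix.of R) := by
    ext1 i j
    rw [CStarMatrix.map_apply, CStarMatrix.mul_apply, hR i j]
    rfl
  rw [hmap]
  exact star_mul_self_nonneg _

theorem t_cpc (hpos : S_POS) : S_CPC' := by
  intro H K _ _ _ _ _ _ Φ hΦ hstar
  refine ⟨{ Φ with map_cstarMatrix_nonneg' := ?_ }, fun x => rfl⟩
  intro k M hM
  show 0 ≤ M.map Φ
  rw [StarOrderedRing.nonneg_iff] at hM
  induction hM using AddSubmonoid.closure_induction with
  | mem x hx =>
    obtain ⟨N, rfl⟩ := hx
    exact square hpos Φ hΦ hstar N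
  | zero =>
    have : (0 : CStarMatrix (Fin k) (Fin k) (H →L[ℂ] H)).map Φ = 0 := by
      ext1 i j
      rw [CStarMatrix.map_apply]
      exact map_zero Φ
    rw [this]
  | add x y _ _ hx hy =>
    have : (x + y).map Φ = x.map Φ + y.map Φ := by
      ext1 i j
      rw [CStarMatrix.map_apply]
      exact map_add Φ _ _
    rw [this]
    exact add_nonneg hx hy

end

end Pool.Agent.N557.QW.LCPC
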