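import Pool.Agent.N557.QW.Stm

/-! (written by helper284, adapted to the complex form of `UCP`) -/

/-!
# DB: the conditional expectation onto the block diagonal operators (worker: helper284)
-/

set_option autoImplicit false

namespace Pool.Agent.N557.QW.LDB

open Pool.Agent.H494R3.GT Pool.Agent.N557.QW
open scoped ComplexOrder

noncomputable section

section ce

variable {P Q : Type}

/-- permutation of the coordinates along an equivalence -/
def ce (e : Q ≃ P) : L2 P →L[ℂ] L2 Q :=
  LinearMap.mkContinuous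
    { toFun := fun v => ⟨fun q => v (e q), mem2.2 ((sum2 v).comp_injective e.injective)⟩
      map_add' := fun v w => by ext q; rfl
      map_smul' := fun c v => by ext q; rfl } 1 (fun v => by
      rw [one_mul]
      refine (sq_le_sq₀ (norm_nonneg _) (norm_nonneg _)).1 ?_
      rw [norm2, norm2]
      exact le_of_eq (e.tsum_eq fun x => ‖v x‖ ^ 2))

lemma ce_apply (e : Q ≃ P) (v : L2 P) (q : Q) : ce e v q = v (e q) := rfl

lemma ce_norm (e : Q ≃ P) (v : L2 P) : ‖ce e v‖ ≤ ‖v‖ := by
  refine (sq_le_sq₀ (norm_nonneg _) (norm_nonneg _)).1 ?_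
  rw [norm2, norm2]
  exact le_of_eq (e.tsum_eq fun x => ‖v x‖ ^ 2)

lemma ce_dl (e : Q ≃ P) (p : P) : ce e (dl p) = dl (e.symm p) := by
  refine vec_ext fun q => ?_
  rw [ce_apply]
  by_cases h : e q = p
  · have h2 : q = e.symm p := by rw [← h, e.symm_apply_apply]
    rw [h, h2, dl_apply_self, dl_apply_self]
  · have h2 : q ≠ e.symm p := fun h3 => h (by rw [h3, e.apply_symm_apply])
    rw [dl_apply_ne h, dl_apply_ne h2]

lemma inner_ce (e : Q ≃ P) (v : L2 P) (w : L2 Q) :
    inner ℂ (ce e v) w = inner ℂ v (ce e.symm w) := by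
  have h : ContinuousLinearMap.adjoint (ce e) = ce e.symm := by
    ext1 w
    refine vec_ext fun p => ?_
    rw [← inner_dl, ContinuousLinearMap.adjoint_inner_right, ce_dl, inner_dl, ce_apply]
  rw [← h, ContinuousLinearMap.adjoint_inner_right]

end ce

variable {P ι : Type} (β : P → ι)

/-- the partition -/
def ee : (Σ b, {p // β p = b}) ≃ P := Equiv.sigmaFiberEquiv β

lemma ee_apply (b : ι) (p : {p // β p = b}) : ee β ⟨b, p⟩ = p.1 := rfl

lemma ee_symm (p : P) : (ee β).symm p = ⟨β p, ⟨p, rfl⟩⟩ := rfl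

/-- the block `b` of an operator -/
def Tb (x : L2 P →L[ℂ] L2 P) (b : ι) : L2 {p // β p = b} →L[ℂ] L2 {p // β p = b} :=
  (rsL (X := fun b => {p // β p = b}) b ∘L ce (ee β)) ∘L x ∘L
    (ce (ee β).symm ∘L (ij (X := fun b => {p // β p = b}) b).toContinuousLinearMap)

lemma Tb_apply (x : L2 P →L[ℂ] L2 P) (b : ι) (v : L2 {p // β p = b}) :
    Tb β x b v = rs (X := fun b => {p // β p = b}) b
      (ce (ee β) (x (ce (ee β).symm (ij (X := fun b => {p // β p = b}) b v)))) := rfl

lemma Tb_norm (x : L2 P →L[ℂ] L2 P) (b : ι) : ‖Tb β x b‖ ≤ ‖x‖ := by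
  refine ContinuousLinearMap.opNorm_le_bound _ (norm_nonneg _) fun v => ?_
  rw [Tb_apply]
  have h1 := (rsL (X := fun b => {p // β p = b}) b).le_of_opNorm_le (rsL_norm b)
    (ce (ee β) (x (ce (ee β).symm (ij (X := fun b => {p // β p = b}) b v))))
  rw [rsL_apply, one_mul] at h1
  refine h1.trans ((ce_norm _ _).trans ((x.le_opNorm _).trans ?_))
  refine mul_le_mul_of_nonneg_left ?_ (norm_nonneg _)
  refine (ce_norm _ _).trans ?_
  rw [LinearIsometry.norm_map]

/-- the block diagonal part -/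
def Dop (x : L2 P →L[ℂ] L2 P) : L2 P →L[ℂ] L2 P :=
  ce (ee β).symm ∘L dsum (X := fun b => {p // β p = b}) (Tb β x) ‖x‖ (Tb_norm β x)
    (norm_nonneg _) ∘L ce (ee β)

/-- the component in a block -/
def cut (b : ι) (v : L2 P) : L2 P :=
  ce (ee β).symm (ij (X := fun b => {p // β p = b}) b
    (rs (X := fun b => {p // β p = b}) b (ce (ee β) v)))

lemma hasSum_Dop (x : L2 P →L[ℂ] L2 P) (v w : L2 P) :
    HasSum (fun b => inner ℂ (cut β b v) (x (cut β b w))) (inner ℂ v (Dop β x w)) := by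
  have h1 : inner ℂ v (Dop β x w) = inner ℂ (ce (ee β) v)
      (dsum (X := fun b => {p // β p = b}) (Tb β x) ‖x‖ (Tb_norm β x) (norm_nonneg _)
        (ce (ee β) w)) := by
    rw [inner_ce]
    rfl
  rw [h1]
  convert inner_sigma (X := fun b => {p // β p = b}) (ce (ee β) v)
    (dsum (X := fun b => {p // β p = b}) (Tb β x) ‖x‖ (Tb_norm β x) (norm_nonneg _)
      (ce (ee β) w)) using 2 with b
  rw [rs_dsum, Tb_apply]
  unfold cut
  rw [inner_ce, Equiv.symm_symm, inner_ij]

lemma cut_dl_self (p : P) : cut β (β p) (dl p) = dl p := by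
  unfold cut
  rw [ce_dl, ee_symm, rs_dl_self, ij_dl, ce_dl, Equiv.symm_symm, ee_apply]

lemma cut_dl_ne {b : ι} {p : P} (h : b ≠ β p) : cut β b (dl p) = 0 := by
  unfold cut
  rw [ce_dl, ee_symm, rs_dl_ne h, map_zero, map_zero]

lemma Dop_eq (x : L2 P →L[ℂ] L2 P) {p q : P} (h : β p = β q) :
    inner ℂ (dl p) (Dop β x (dl q)) = inner ℂ (dl p) (x (dl q)) := by
  refine (hasSum_Dop β x (dl p) (dl q)).unique ?_
  have h2 := hasSum_single (f := fun b => inner ℂ (cut β b (dl p)) (x (cut β b (dl q)))) (β p)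
    (fun b hb => by rw [cut_dl_ne β hb, inner_zero_left])
  have h3 : inner ℂ (cut β (β p) (dl p)) (x (cut β (β p) (dl q))) = inner ℂ (dl p) (x (dl q)) := by
    rw [cut_dl_self, h, cut_dl_self]
  rw [← h3]
  exact h2

lemma Dop_ne (x : L2 P →L[ℂ] L2 P) {p q : P} (h : β p ≠ β q) :
    inner ℂ (dl p) (Dop β x (dl q)) = 0 := by
  refine (hasSum_Dop β x (dl p) (dl q)).unique ?_
  have h2 : (fun b => inner ℂ (cut β b (dl p)) (x (cut β b (dl q)))) = fun _ : ι => (0 : ℂ) := by
    funext b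
    by_cases hb : b = β p
    · rw [cut_dl_ne β (p := q) (fun h3 => h (hb.symm.trans h3)), map_zero, inner_zero_right]
    · rw [cut_dl_ne β hb, inner_zero_left]
  rw [h2]
  exact hasSum_zero

/-- the block diagonal part, as a linear map -/
def Dlin : (L2 P →L[ℂ] L2 P) →ₗ[ℂ] (L2 P →L[ℂ] L2 P) where
  toFun := Dop β
  map_add' x y := op_ext_inner fun p q => by
    rw [add_apply, inner_add_right]
    by_cases h : β p = β q
    · rw [Dop_eq β _ h, Dop_eq β _ h, Dop_eq β _ h, add_apply, inner_add_right]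
    · rw [Dop_ne β _ h, Dop_ne β _ h, Dop_ne β _ h, add_zero]
  map_smul' c x := op_ext_inner fun p q => by
    rw [RingHom.id_apply, smul_apply, inner_smul_right]
    by_cases h : β p = β q
    · rw [Dop_eq β _ h, Dop_eq β _ h, smul_apply, inner_smul_right]
    · rw [Dop_ne β _ h, Dop_ne β _ h, mul_zero]

lemma Dlin_ucp : UCP (Dlin β) where
  one := op_ext_inner fun p q => by
    change inner ℂ (dl p) (Dop β 1 (dl q)) = _
    by_cases h : β p = β q
    · rw [Dop_eq β _ h]
    · rw [Dop_ne β _ h]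
      have hpq : q ≠ p := fun h2 => h (by rw [h2])
      change (0 : ℂ) = inner ℂ (dl p) (dl q)
      rw [inner_dl, dl_apply_ne (Ne.symm hpq)]
  cp n x v := by
    have h1 : HasSum (fun b => ∑ i, ∑ j, inner ℂ (cut β b (v i))
        ((star (x i) * x j) (cut β b (v j))))
        (∑ i, ∑ j, inner ℂ (v i) (Dlin β (star (x i) * x j) (v j))) :=
      hasSum_sum fun i _ => hasSum_sum fun j _ => hasSum_Dop β (star (x i) * x j) (v i) (v j)
    refine h1.nonneg fun b => ?_
    have h3 : ∑ i, ∑ j, inner ℂ (cut β b (v i)) ((star (x i) * x j) (cut β b (v j))) =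
        inner ℂ (∑ i, x i (cut β b (v i))) (∑ i, x i (cut β b (v i))) := by
      rw [sum_inner]
      refine Finset.sum_congr rfl fun i _ => ?_
      rw [inner_sum]
      refine Finset.sum_congr rfl fun j _ => ?_
      rw [mul_ap, ContinuousLinearMap.star_eq_adjoint, ContinuousLinearMap.adjoint_inner_right]
    rw [h3, inner_self_eq_norm_sq_to_K]
    norm_cast
    positivity

/-- **DB** -/
theorem t_db : S_DB := fun P ι β => ⟨Dlin β, Dlin_ucp β, fun x _ _ h => Dop_eq β x h,
  fun x _ _ h => Dop_ne β x h⟩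

end

end Pool.Agent.N557.QW.LDB
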