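import Pool.Agent.N557.QW.RFD3
import Pool.Agent.N557.QW.LDB
import Pool.Agent.N557.QW.LCPC
import Pool.Agent.N935.QWP.BDM
import Pool.Agent.N286.QWP.ISO
import Pool.Agent.N717.QWP.GNS
import Pool.Agent.N163.QWP.EXT
import Pool.Agent.N403.QWP.Pos
import Pool.Agent.N896.QWP.CAB
import Pool.Agent.N55.QWP.SOT
import Pool.Agent.N169.QWP.COM
import Pool.Agent.N2.QWP.Amp
import Pool.Agent.N31.QWP.LKM
import Pool.Agent.N335.QWP.RDC
import Pool.Agent.N169.QWP.FRE
import Pool.Agent.N664.QWP.RT
import Pool.Agent.N78.QWP.AHU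

/-!
# Group von Neumann algebras of residually finite groups are QWEP; amalgamated free products
-/

set_option autoImplicit false
set_option linter.unusedSectionVars false

namespace Pool.Agent.N557.QW

open Pool.Agent.H494R3.GT
open Pool.Agent.N859.QW (WEP QWEP)

noncomputable section

theorem t_cpc : S_CPC := fun H K _ _ _ _ _ _ Φ hΦ =>
  LCPC.t_cpc Pool.Agent.N403.QWP.t_pos H K Φ hΦ hΦ.star_map

/-- The von Neumann algebra of a residually finite group is QWEP. -/
theorem qwep_LG (G : Type) [Group G] (h : RF G) : QWEP (LG G) := by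
  obtain ⟨P, ι, β, θ, u, hfin, hd⟩ := t_rfd Pool.Agent.N935.QWP.t_bdm Pool.Agent.N717.QWP.t_gns
    Pool.Agent.N896.QWP.t_ca Pool.Agent.N896.QWP.t_cb
    (Pool.Agent.N55.QWP.t_sot Pool.Agent.N169.QWP.t_com) G h
  exact qwep_of_data Pool.Agent.N935.QWP.t_bdm LDB.t_db Pool.Agent.N286.QWP.t_iso
    Pool.Agent.N717.QWP.t_gns Pool.Agent.N163.QWP.t_ext Pool.Agent.N403.QWP.t_pos t_cpc hfin hd

/-- elements of `L(G)` are determined by their coefficients -/
lemma LG_ext {G : Type} [Group G] {x y : L2 G →L[ℂ] L2 G} (hx : x ∈ LG G) (hy : y ∈ LG G)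
    (h : ∀ g, cf x g = cf y g) : x = y := by
  apply op_ext_inner
  intro t s
  rw [mem_LG_iff.1 hx, mem_LG_iff.1 hy, h]

lemma RF.sub {G : Type} [Group G] (h : RF G) (K : Subgroup G) : RF K := by
  classical
  intro F
  obtain ⟨Q, gq, fq, f, hf⟩ := h (F.image Subtype.val)
  refine ⟨Q, gq, fq, f.comp K.subtype, ?_⟩
  intro a ha b hb hab
  apply Subtype.ext
  exact hf (by simpa using ha) (by simpa using hb) hab

/-- The von Neumann algebra of a subgroup `K` of a residually finite group `G`, acting on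
`ℓ²(G)`, is QWEP. -/
theorem qwep_LK (G : Type) [Group G] (h : RF G) (K : Subgroup G) : QWEP (LK K) := by
  obtain ⟨H0, i1, i2, i3, C, q, hC, hW, hr⟩ := qwep_LG K (h.sub K)
  obtain ⟨α, hα1, hα2, hα3⟩ := Pool.Agent.N2.QWP.t_amp K G K.subtype K.subtype_injective
  have hq : ∀ c, q c ∈ (LG K).toStarSubalgebra := by
    intro c
    have : q c ∈ Set.range q := ⟨c, rfl⟩
    rw [hr] at this
    exact this
  let q' : C →⋆ₐ[ℂ] (LG K).toStarSubalgebra := q.codRestrict _ hq
  refine ⟨H0, i1, i2, i3, C, α.comp q', hC, hW, ?_⟩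
  ext x
  have hl := (Pool.Agent.N31.QWP.t_lkm G K)
  constructor
  · rintro ⟨c, rfl⟩
    change α (q' c) ∈ LK K
    rw [hl.1]
    refine ⟨hα1 _, fun g hg => hα3 _ g ?_⟩
    rintro ⟨k, rfl⟩
    exact hg k.2
  · intro hx
    obtain ⟨y, hy, hyx⟩ := hl.2 x hx
    have hy' : y ∈ Set.range q := by
      rw [hr]; exact hy
    obtain ⟨c, hc⟩ := hy'
    refine ⟨c, ?_⟩
    change α (q' c) = x
    have hx' := (hl.1 x).1 hx
    apply LG_ext (hα1 _) hx'.1
    intro g
    by_cases hg : g ∈ K
    · have h1 := hα2 (q' c) ⟨g, hg⟩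
      change cf (α (q' c)) g = cf (q c) ⟨g, hg⟩ at h1
      rw [h1, hc, hyx]
    · rw [hα3 _ g (by rintro ⟨k, rfl⟩; exact hg k.2), hx'.2 g hg]

section double

variable (G : Type) [Group G] (K : Subgroup G)

/-- the double of `G` over `K` -/
abbrev Dbl : Type := Monoid.PushoutI (fun _ : Fin 2 => K.subtype)

/-- the two embeddings -/
abbrev inc (i : Fin 2) : G →* Dbl G K := Monoid.PushoutI.of (φ := fun _ : Fin 2 => K.subtype) i

lemma inc_inj (i : Fin 2) : Function.Injective (inc G K i) :=
  Monoid.PushoutI.of_injective (fun _ => K.subtype_injective) i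

/-- The von Neumann algebra of the double is an amalgamated free product. -/
theorem exists_afp : ∃ π : Fin 2 → (LG G).toStarSubalgebra →⋆ₐ[ℂ] (L2 (Dbl G K) →L[ℂ] L2 (Dbl G K)),
    IsAmalgFreeProd (LG G) (LK K) (dl (1 : G)) (LG (Dbl G K)) (dl 1) π := by
  choose α hα1 hα2 hα3 using fun i : Fin 2 =>
    Pool.Agent.N2.QWP.t_amp G (Dbl G K) (inc G K i) (inc_inj G K i)
  have hl := (Pool.Agent.N31.QWP.t_lkm G K)
  have hαlam : ∀ i g, α i ⟨lam g, lam_mem g⟩ = lam (inc G K i g) := by
    intro i g
    classical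
    have hcf : ∀ {Γ : Type} [Group Γ] (a b : Γ), cf (lam a) b = if b = a then (1 : ℂ) else 0 := by
      intro Γ _ a b
      rw [cf, lam_dl, mul_one, dl_inner]
    apply LG_ext (hα1 _ _) (lam_mem _)
    intro γ
    by_cases hγ : γ ∈ Set.range (inc G K i)
    · obtain ⟨g', rfl⟩ := hγ
      rw [hα2]
      change cf (lam g) g' = _
      rw [hcf, hcf]
      by_cases hg : g' = g
      · rw [if_pos hg, if_pos (by rw [hg])]
      · rw [if_neg hg, if_neg (fun h => hg (inc_inj G K i h))]
    · rw [hα3 _ _ _ hγ, hcf, if_neg]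
      intro h
      exact hγ ⟨g, h.symm⟩
  refine ⟨α, hα1, ?_, ?_, ?_, ?_⟩
  · intro i a
    have := hα2 i a 1
    rw [map_one] at this
    exact this
  · intro b hb
    apply LG_ext (hα1 _ _) (hα1 _ _)
    have hbase : ∀ (i : Fin 2) (k : K), inc G K i k =
        Monoid.PushoutI.base (fun _ : Fin 2 => K.subtype) k := by
      intro i k
      have := Monoid.PushoutI.of_apply_eq_base (fun _ : Fin 2 => K.subtype) i k
      exact this
    have key : ∀ (i j : Fin 2) (γ : Dbl G K), γ ∈ Set.range (inc G K i) →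
        cf (α i b) γ = cf (α j b) γ ∨ (γ ∉ Set.range (inc G K j) ∧ cf (α i b) γ = 0) := by
      intro i j γ hγ
      obtain ⟨g, rfl⟩ := hγ
      by_cases hg : g ∈ K
      · left
        have e1 : inc G K i g = inc G K j g := by
          rw [show g = ((⟨g, hg⟩ : K) : G) from rfl, hbase, hbase]
        rw [hα2, e1, hα2]
      · have h0 : cf (α i b) (inc G K i g) = 0 := by
          rw [hα2]
          exact ((hl.1 b.1).1 hb).2 g hg
        by_cases hj : inc G K i g ∈ Set.range (inc G K j)
        · left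
          obtain ⟨g', hg'⟩ := hj
          rw [h0, ← hg', hα2]
          by_cases hg'K : g' ∈ K
          · exfalso
            apply hg
            have e2 : inc G K j g' = inc G K i g' := by
              rw [show g' = ((⟨g', hg'K⟩ : K) : G) from rfl, hbase, hbase]
            rw [e2] at hg'
            rw [← inc_inj G K i hg']
            exact hg'K
          · exact (((hl.1 b.1).1 hb).2 g' hg'K).symm
        · exact Or.inr ⟨hj, h0⟩
    intro γ
    by_cases h0 : γ ∈ Set.range (inc G K 0)
    · rcases key 0 1 γ h0 with h | ⟨h1, h2⟩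
      · exact h
      · rw [h2, hα3 1 _ _ h1]
    · by_cases h1 : γ ∈ Set.range (inc G K 1)
      · rcases key 1 0 γ h1 with h | ⟨h2, h3⟩
        · exact h.symm
        · rw [h3, hα3 0 _ _ h0]
      · rw [hα3 0 _ _ h0, hα3 1 _ _ h1]
  · -- generation
    have hcom := (Pool.Agent.N169.QWP.t_com (Dbl G K)).1
    apply Set.Subset.antisymm
    · -- the double commutant of the union is contained in the double commutant of M
      have h1 : (⋃ i, Set.range (α i)) ⊆ (LG (Dbl G K) : Set (L2 (Dbl G K) →L[ℂ] L2 (Dbl G K))) := by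
        intro x hx
        simp only [Set.mem_iUnion] at hx
        obtain ⟨i, a, rfl⟩ := hx
        exact hα1 i a
      have h2 := Set.centralizer_subset (Set.centralizer_subset h1)
      rwa [VonNeumannAlgebra.centralizer_centralizer] at h2
    · rw [← hcom]
      intro x hx T hT
      refine hx T ?_
      rintro _ ⟨γ, rfl⟩
      -- T commutes with every lam γ
      have key : ∀ γ : Dbl G K, lam γ * T = T * lam γ := by
        intro γ
        induction γ using Monoid.PushoutI.induction_on with
        | of i g =>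
          have h3 : lam (inc G K i g) ∈ ⋃ i, Set.range (α i) := by
            simp only [Set.mem_iUnion]
            exact ⟨i, ⟨lam g, lam_mem g⟩, hαlam i g⟩
          exact hT _ h3
        | base k =>
          have h3 : lam (Monoid.PushoutI.base (fun _ : Fin 2 => K.subtype) k) ∈
              ⋃ i, Set.range (α i) := by
            simp only [Set.mem_iUnion]
            refine ⟨0, ⟨lam (k : G), lam_mem _⟩, ?_⟩
            rw [hαlam]
            congr 1
            exact Monoid.PushoutI.of_apply_eq_base (fun _ : Fin 2 => K.subtype) 0 k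
          exact hT _ h3
        | mul x y hx hy =>
          rw [lam_mul, mul_assoc, hy, ← mul_assoc, hx, mul_assoc]
      exact key γ
  · intro n i a hi ha
    apply Pool.Agent.N169.QWP.FRE.t_fre Pool.Agent.N335.QWP.t_rdc G K α hα1 hα3 hα2 n i a hi
    intro j k hk
    have h1 := ha j (lam k⁻¹) (by
      rw [hl.1]
      refine ⟨lam_mem _, fun g hg => ?_⟩
      classical
      rw [cf, lam_dl, mul_one, dl_inner, if_neg]
      intro h
      apply hg
      rw [h]
      exact inv_mem hk)
    rw [← star_lam, star_ap, lam_dl, mul_one] at h1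
    exact h1

end double

end

end Pool.Agent.N557.QW
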