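import Pool.Agent.N557.QW.Main1
import Pool.Agent.N833.QW.BIM
import Pool.Agent.N286.QW.STATE
import Pool.Agent.N163.QW.DAY
import Pool.Agent.N2.QW.Mat

/-!
# If an amalgamated free product of `L(G)` over `L(K)` is QWEP then the double of `G` over `K` is
hyperlinear
-/

set_option autoImplicit false
set_option linter.unusedSectionVars false

namespace Pool.Agent.N557.QW

open Pool.Agent.H494R3.GT
open Pool.Agent.N859.QW (WEP QWEP Dt S_QH)
open Pool.Agent.H21R2 (IsHyperlinear)

noncomputable section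

theorem t_qh : S_QH :=
  Pool.Agent.N859.QW.qh_of
    (Pool.Agent.N286.QW.t_state fun K _ _ _ Φ h1 a ha haa T =>
      Pool.Agent.N833.QW.t_bim Φ h1 a ha haa T)
    Pool.Agent.N163.QW.t_day Pool.Agent.N2.QW.t_mat

/-- If `M` is an amalgamated free product of two copies of `L(G)` over `L(K)` and `M` is QWEP then
the double of `G` over `K` is hyperlinear. -/
theorem hyp_of_qwep (G : Type) [Group G] (K : Subgroup G) (H : Type) [NormedAddCommGroup H]
    [InnerProductSpace ℂ H] [CompleteSpace H] (M : VonNeumannAlgebra H) (η : H)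
    (π : Fin 2 → (LG G).toStarSubalgebra →⋆ₐ[ℂ] (H →L[ℂ] H)) (hM : IsTracial M η)
    (h : IsAmalgFreeProd (LG G) (LK K) (dl (1 : G)) M η π) (hq : QWEP M) :
    IsHyperlinear (Dbl G K) := by
  obtain ⟨u, hu1, hu2⟩ := Pool.Agent.N78.QWP.t_ahu Pool.Agent.N335.QWP.t_rdc
    Pool.Agent.N31.QWP.t_lkm Pool.Agent.N169.QWP.t_com G K H M η π h
  have hr : ∀ γ, ∃ r : H →L[ℂ] H, (∀ x ∈ M, x * r = r * x) ∧ r η = (u γ : H →L[ℂ] H) η ∧
      (star r) η = (star (u γ : H →L[ℂ] H)) η := fun γ =>
    Pool.Agent.N664.QWP.t_rt H M η hM _ (hu1 γ) (Unitary.coe_star_mul_self (u γ))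
      (Unitary.coe_mul_star_self (u γ))
  choose r hr1 hr2 hr3 using hr
  exact t_qh H M (Dbl G K) u r η hq
    { mem := hu1
      com := hr1
      unit := hM.unit
      orth := hu2
      eq1 := hr2
      eq2 := hr3 }

end

end Pool.Agent.N557.QW
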