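import Pool.Agent.N557.QW.Main2
import Pool.Agent.N52.ST.Final
import Pool.Agent.N289.SA.Pair
import Pool.Agent.N44.HL.H

/-!
# The amalgamated free product of two copies of a QWEP von Neumann algebra over a QWEP subalgebra
need not be QWEP
-/

set_option autoImplicit false
set_option linter.unusedSectionVars false

namespace Pool.Agent.N557.QW

open Pool.Agent.H494R3.GT
open Pool.Agent.N859.QW (WEP QWEP)
open Pool.Agent.H21R2 (IsHyperlinear)
open Pool.Agent.W661.RC (HasT)

noncomputable section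

/-- The double of `G` over `K` is not hyperlinear if `G` and `K` have property (T), `G` is
generated by elements which conjugate `K` into a larger subgroup and one of them does not
normalise `K`. -/
theorem dbl_not_hyp (G : Type) [Group G] (K : Subgroup G) (hG : HasT G) (hK : HasT K)
    (hcl : Subgroup.closure {g : G | ∀ k ∈ K, g⁻¹ * k * g ∈ K} = ⊤)
    (h : ∃ g : G, (∀ k ∈ K, g⁻¹ * k * g ∈ K) ∧ ∃ k ∈ K, g * k * g⁻¹ ∉ K) :
    ¬ IsHyperlinear (Dbl G K) := by
  intro hyp
  obtain ⟨P, gP, f, S, hP, hf, hS⟩ := ((Pool.Agent.N44.HL.closed_tfae6 K).out 2 1).1 hyp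
  obtain ⟨g, hg, k, hk, hgk⟩ := h
  apply hgk
  rw [hS]
  intro s hs
  have hstrong := Pool.Agent.N52.ST.strong_main P f.range (K.map f) hP
    (Pool.Agent.N52.ST.hasT_of_surjective f.rangeRestrict f.rangeRestrict_surjective hG)
    (Pool.Agent.N52.ST.hasT_of_surjective (f.subgroupMap K) (f.subgroupMap_surjective K) hK)
    (by rintro _ ⟨x, _, rfl⟩; exact ⟨x, rfl⟩)
    (by
      apply le_antisymm
      · rw [Subgroup.closure_le]
        rintro x ⟨hx, -⟩
        exact hx
      · rintro _ ⟨x, rfl⟩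
        have hx : x ∈ Subgroup.closure {g : G | ∀ k ∈ K, g⁻¹ * k * g ∈ K} := by
          rw [hcl]; trivial
        induction hx using Subgroup.closure_induction with
        | mem y hy =>
          refine Subgroup.subset_closure ⟨⟨y, rfl⟩, ?_⟩
          rintro _ ⟨c, hc, rfl⟩
          exact ⟨y⁻¹ * c * y, hy c hc, by simp⟩
        | one => rw [map_one]; exact one_mem _
        | mul a b _ _ ha hb => rw [map_mul]; exact mul_mem ha hb
        | inv a _ ha => rw [map_inv]; exact inv_mem ha)
    (f g) ⟨g, rfl⟩ (by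
      rintro _ ⟨c, hc, rfl⟩
      exact ⟨g⁻¹ * c * g, hg c hc, by simp⟩) s (by
      rintro _ ⟨c, hc, rfl⟩
      exact (hS c).1 hc s hs) (f k) ⟨k, hk, rfl⟩
  rw [map_mul, map_mul, map_inv]
  exact hstrong

lemma sep_L2 (P : Type) [Countable P] : TopologicalSpace.SeparableSpace (L2 P) := by
  have h1 : TopologicalSpace.IsSeparable (Set.range (dl : P → L2 P)) :=
    (Set.countable_range _).isSeparable
  have h2 : TopologicalSpace.IsSeparable
      ((Submodule.span ℂ (Set.range (dl : P → L2 P)) : Submodule ℂ (L2 P)) : Set (L2 P)) :=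
    h1.span
  have h3 := h2.closure
  have h4 : closure ((Submodule.span ℂ (Set.range (dl : P → L2 P)) : Submodule ℂ (L2 P)) :
      Set (L2 P)) = Set.univ := by
    rw [← Submodule.topologicalClosure_coe]
    have h5 : (Submodule.span ℂ (Set.range (dl : P → L2 P))).topologicalClosure = ⊤ := by
      rw [Submodule.topologicalClosure_eq_top_iff, Submodule.eq_bot_iff]
      intro v hv
      refine vec_ext fun p => ?_
      rw [Submodule.mem_orthogonal] at hv
      rw [← inner_dl]
      exact hv _ (Submodule.subset_span ⟨p, rfl⟩)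
    rw [h5]
    rfl
  rw [h4] at h3
  exact TopologicalSpace.isSeparable_univ_iff.1 h3

theorem main :
    ∃ (H : Type) (_ : NormedAddCommGroup H) (_ : InnerProductSpace ℂ H) (_ : CompleteSpace H)
      (A B : VonNeumannAlgebra H) (ξ : H), TopologicalSpace.SeparableSpace H ∧
      IsTracial A ξ ∧ B ≤ A ∧ QWEP A ∧ QWEP B ∧
      (∃ (K : Type) (_ : NormedAddCommGroup K) (_ : InnerProductSpace ℂ K) (_ : CompleteSpace K)
        (M : VonNeumannAlgebra K) (η : K)
        (π : Fin 2 → A.toStarSubalgebra →⋆ₐ[ℂ] (K →L[ℂ] K)),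
        IsTracial M η ∧ IsAmalgFreeProd A B ξ M η π) ∧
      ∀ (K : Type) [NormedAddCommGroup K] [InnerProductSpace ℂ K] [CompleteSpace K]
        (M : VonNeumannAlgebra K) (η : K)
        (π : Fin 2 → A.toStarSubalgebra →⋆ₐ[ℂ] (K →L[ℂ] K)),
        IsTracial M η → IsAmalgFreeProd A B ξ M η π → ¬ QWEP M := by
  obtain ⟨G, _, K, hcount, hrf, hG, hK, hcl, hne⟩ := Pool.Agent.N289.SA.s_pair
  have hRF : RF G := hrf
  obtain ⟨π, hπ⟩ := exists_afp G K
  refine ⟨L2 G, inferInstance, inferInstance, inferInstance, LG G, LK K, dl 1, sep_L2 G,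
    (Pool.Agent.N169.QWP.t_com G).2, ?_, qwep_LG G hRF, qwep_LK G hRF K,
    ⟨L2 (Dbl G K), inferInstance, inferInstance, inferInstance, LG (Dbl G K), dl 1, π,
      (Pool.Agent.N169.QWP.t_com (Dbl G K)).2, hπ⟩, ?_⟩
  · intro x hx
    exact (((Pool.Agent.N31.QWP.t_lkm G K).1 x).1 hx).1
  · intro H _ _ _ M η π hM hfp hq
    exact dbl_not_hyp G K hG hK hcl hne (hyp_of_qwep G K H M η π hM hfp hq)

end

end Pool.Agent.N557.QW
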