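import Pool.Agent.N557.QW.Stm

/-!
# Composition of completely positive maps, the map `E`
-/

set_option autoImplicit false
set_option linter.unusedSectionVars false

namespace Pool.Agent.N557.QW

open Pool.Agent.H494R3.GT
open scoped ComplexOrder CStarAlgebra

noncomputable section

section cmp

variable {H K : Type} [NormedAddCommGroup H] [InnerProductSpace ℂ H] [CompleteSpace H]
  [NormedAddCommGroup K] [InnerProductSpace ℂ K] [CompleteSpace K]

omit [CompleteSpace H] in
lemma ring_aux (x s y : H →L[ℂ] H) :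
    (s + -y) * (x + y) - (s - -y) * (x - y) = (2 : ℂ) • (s * y - y * x) := by
  rw [two_smul]
  noncomm_ring

lemma star_ap (T : H →L[ℂ] H) (v w : H) : inner ℂ v (star T w) = inner ℂ (T v) w := by
  rw [ContinuousLinearMap.star_eq_adjoint, ContinuousLinearMap.adjoint_inner_right]

lemma star_ap' (T : H →L[ℂ] H) (v w : H) : inner ℂ (star T v) w = inner ℂ v (T w) := by
  rw [ContinuousLinearMap.star_eq_adjoint, ContinuousLinearMap.adjoint_inner_left]

lemma eq_star_of_inner {S T : H →L[ℂ] H} (h : ∀ v w, inner ℂ (S v) w = inner ℂ v (T w)) :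
    star S = T := by
  ext1 w
  refine ext_inner_left ℂ fun v => ?_
  rw [star_ap, h]

/-- nonnegative elements are mapped to nonnegative operators -/
lemma UCP.pos {Φ : (H →L[ℂ] H) →ₗ[ℂ] (K →L[ℂ] K)} (h : UCP Φ) (x : H →L[ℂ] H) (v : K) :
    0 ≤ inner ℂ v (Φ (star x * x) v) := by
  have := h.cp 1 (fun _ => x) (fun _ => v)
  simpa using this

lemma sa_of_pos {T : K →L[ℂ] K} (h : ∀ v, 0 ≤ inner ℂ v (T v)) : star T = T := by
  have h1 : (T : K →ₗ[ℂ] K).IsSymmetric := by
    rw [LinearMap.isSymmetric_iff_inner_map_self_real]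
    intro v
    have h2 := h v
    have h3 : (starRingEnd ℂ) (inner ℂ v (T v)) = inner ℂ v (T v) := by
      rw [Complex.conj_eq_iff_im]
      exact (Complex.nonneg_iff.1 h2).2.symm
    change (starRingEnd ℂ) (inner ℂ (T v) v) = inner ℂ (T v) v
    rw [← inner_conj_symm v (T v)] at h3
    simpa using h3.symm
  exact eq_star_of_inner fun v w => h1 v w

lemma UCP.star_map {Φ : (H →L[ℂ] H) →ₗ[ℂ] (K →L[ℂ] K)} (h : UCP Φ) (x : H →L[ℂ] H) :
    Φ (star x) = star (Φ x) := by
  have key : ∀ y : H →L[ℂ] H, star (Φ (star y * y)) = Φ (star y * y) := fun y =>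
    sa_of_pos fun v => h.pos y v
  -- polarisation: star x = combination of the four elements
  have h1 := key (x + 1)
  have h2 := key (x - 1)
  have h3 := key (x + Complex.I • 1)
  have h4 := key (x - Complex.I • 1)
  have e1 : star (x + 1) * (x + 1) - star (x - 1) * (x - 1) = (2 : ℂ) • (x + star x) := by
    simp only [star_add, star_sub, star_one, add_mul, mul_add, sub_mul, mul_sub, one_mul, mul_one,
      two_smul]
    abel
  have e2 : star (x + Complex.I • 1) * (x + Complex.I • 1) -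
      star (x - Complex.I • 1) * (x - Complex.I • 1) = (2 * Complex.I) • (star x - x) := by
    have hI : star (Complex.I • (1 : H →L[ℂ] H)) = -(Complex.I • (1 : H →L[ℂ] H)) := by
      rw [star_smul, star_one, ← neg_smul]
      congr 1
      exact Complex.conj_I
    have g1 : star x * (Complex.I • (1 : H →L[ℂ] H)) = Complex.I • star x := by
      rw [mul_smul_comm, mul_one]
    have g2 : (Complex.I • (1 : H →L[ℂ] H)) * x = Complex.I • x := by
      rw [smul_mul_assoc, one_mul]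
    rw [star_add, star_sub, hI]
    have g3 : (star x + -(Complex.I • (1 : H →L[ℂ] H))) * (x + Complex.I • 1) -
        (star x - -(Complex.I • (1 : H →L[ℂ] H))) * (x - Complex.I • 1) =
        (2 : ℂ) • (star x * (Complex.I • (1 : H →L[ℂ] H)) - (Complex.I • (1 : H →L[ℂ] H)) * x) :=
      ring_aux _ _ _
    rw [g3, g1, g2, ← smul_sub, smul_smul]
  have k1 : star (Φ ((2 : ℂ) • (x + star x))) = Φ ((2 : ℂ) • (x + star x)) := by
    rw [← e1, map_sub, star_sub, h1, h2]
  have k2 : star (Φ ((2 * Complex.I) • (star x - x))) = Φ ((2 * Complex.I) • (star x - x)) := by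
    rw [← e2, map_sub, star_sub, h3, h4]
  rw [map_smul, star_smul] at k1 k2
  have c1 : star (2 : ℂ) = 2 := by simp
  have c2 : star (2 * Complex.I) = -(2 * Complex.I) := by
    simp
  rw [c1] at k1
  rw [c2, neg_smul, ← smul_neg] at k2
  have k1' := smul_right_injective (K →L[ℂ] K) (two_ne_zero (α := ℂ)) k1
  have k2' := smul_right_injective (K →L[ℂ] K)
    (mul_ne_zero (two_ne_zero (α := ℂ)) Complex.I_ne_zero) k2
  simp only [map_add, map_sub, star_add, star_sub] at k1' k2'
  -- k1' : star Φx + star Φx* = Φx + Φx* ; k2' : -(star Φx* - star Φx) = Φx* - Φx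
  have k3 : star (Φ x) + star (Φ x) = Φ (star x) + Φ (star x) := by
    have l : star (Φ x) + star (Φ (star x)) + -(star (Φ (star x)) - star (Φ x)) =
      star (Φ x) + star (Φ x) := by abel
    have r : Φ x + Φ (star x) + (Φ (star x) - Φ x) = Φ (star x) + Φ (star x) := by abel
    rw [← l, k1', k2', r]
  have k4 : (2 : ℂ) • star (Φ x) = (2 : ℂ) • Φ (star x) := by
    rw [two_smul, two_smul, k3]
  exact (smul_right_injective (K →L[ℂ] K) (two_ne_zero (α := ℂ)) k4).symm

/-- composition of a unital completely positive map with values in `L` and a completely positive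
map on `L` -/
lemma cmp_cp (hP : S_POS) {H' : Type} [NormedAddCommGroup H'] [InnerProductSpace ℂ H']
    [CompleteSpace H'] {Θ : (H →L[ℂ] H) →ₗ[ℂ] (K →L[ℂ] K)} (hΘ : UCP Θ)
    (L : StarSubalgebra ℂ (K →L[ℂ] K)) (hcl : IsClosed (L : Set (K →L[ℂ] K)))
    (hL : ∀ T, Θ T ∈ L) (Ψ : L →ₗ[ℂ] (H' →L[ℂ] H'))
    (hΨ : ∀ (n : ℕ) (x : Fin n → L) (v : Fin n → H'),
      0 ≤ ∑ i, ∑ j, inner ℂ (v i) (Ψ (star (x i) * x j) (v j)))
    (n : ℕ) (T : Fin n → H →L[ℂ] H) (v : Fin n → H') :
    0 ≤ ∑ i, ∑ j, inner ℂ (v i) (Ψ ⟨Θ (star (T i) * T j), hL _⟩ (v j)) := by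
  obtain ⟨R, hR, hR2⟩ := hP K L hcl n (fun i j => Θ (star (T i) * T j)) (fun i j => hL _)
    (fun i j => by rw [← hΘ.star_map, star_mul, star_star])
    (fun w => (Complex.nonneg_iff.1 (hΘ.cp n T w)).1)
  have h1 : ∀ i j, (⟨Θ (star (T i) * T j), hL _⟩ : L) =
      ∑ l, star (⟨R l i, hR l i⟩ : L) * ⟨R l j, hR l j⟩ := by
    intro i j
    apply Subtype.ext
    change Θ (star (T i) * T j) = _
    rw [hR2 i j]
    simp
  have h2 : ∑ i, ∑ j, inner ℂ (v i) (Ψ ⟨Θ (star (T i) * T j), hL _⟩ (v j)) =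
      ∑ l, ∑ i, ∑ j, inner ℂ (v i) (Ψ (star (⟨R l i, hR l i⟩ : L) * ⟨R l j, hR l j⟩) (v j)) := by
    have : ∀ i j, inner ℂ (v i) (Ψ ⟨Θ (star (T i) * T j), hL _⟩ (v j)) =
        ∑ l, inner ℂ (v i) (Ψ (star (⟨R l i, hR l i⟩ : L) * ⟨R l j, hR l j⟩) (v j)) := by
      intro i j
      rw [h1 i j, map_sum, sum_apply, inner_sum]
    simp only [this]
    have e3 : ∀ i, (∑ j, ∑ l, inner ℂ (v i)
        (Ψ (star (⟨R l i, hR l i⟩ : L) * ⟨R l j, hR l j⟩) (v j))) =
        ∑ l, ∑ j, inner ℂ (v i) (Ψ (star (⟨R l i, hR l i⟩ : L) * ⟨R l j, hR l j⟩) (v j)) :=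
      fun i => Finset.sum_comm
    simp only [e3]
    exact Finset.sum_comm
  rw [h2]
  exact Finset.sum_nonneg fun l _ => hΨ n (fun i => ⟨R l i, hR l i⟩) v

end cmp

end

end Pool.Agent.N557.QW
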