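import Pool.Agent.N557.QW.PM1

/-!
# The map `E`, the algebra `C₁`, the ideal `J`
-/

set_option autoImplicit false
set_option linter.unusedSectionVars false

namespace Pool.Agent.N557.QW

open Pool.Agent.H494R3.GT
open scoped ComplexOrder CStarAlgebra

noncomputable section

section gd

variable {G : Type} [Group G] {P ι : Type} {β : P → ι} {θ : (L2 P →L[ℂ] L2 P) →ₗ[ℂ] ℂ}
  {u : G →* (L2 P →L[ℂ] L2 P)}
  {K : Type} [NormedAddCommGroup K] [InnerProductSpace ℂ K] [CompleteSpace K]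

/-- the GNS representation together with the isometry `ℓ²(G) → K` -/
structure GD (θ : (L2 P →L[ℂ] L2 P) →ₗ[ℂ] ℂ) (u : G →* (L2 P →L[ℂ] L2 P)) (K : Type)
    [NormedAddCommGroup K] [InnerProductSpace ℂ K] [CompleteSpace K] where
  π : (L2 P →L[ℂ] L2 P) →⋆ₐ[ℂ] (K →L[ℂ] K)
  ξ : K
  W : L2 G →ₗᵢ[ℂ] K
  hθ : ∀ x, inner ℂ ξ (π x ξ) = θ x
  hW : ∀ s, W (dl s) = π (u s) ξ

lemma star_u' (huu : ∀ g, star (u g) * u g = 1) (g : G) : star (u g) = u g⁻¹ := by
  have h1 : u g * u g⁻¹ = 1 := by rw [← map_mul, mul_inv_cancel, map_one]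
  rw [← mul_one (star (u g)), ← h1, ← mul_assoc, huu, one_mul]

lemma exists_GD' (hG : S_GNS) (h1 : θ 1 = 1) (h2 : ∀ x, 0 ≤ θ (star x * x))
    (huu : ∀ g, star (u g) * u g = 1) (htr : ∀ g, g ≠ 1 → θ (u g) = 0) :
    ∃ (K : Type) (_ : NormedAddCommGroup K) (_ : InnerProductSpace ℂ K) (_ : CompleteSpace K),
      Nonempty (GD θ u K) := by
  classical
  obtain ⟨K, i1, i2, i3, π, ξ, hπ⟩ := hG (L2 P) θ h1 h2
  refine ⟨K, i1, i2, i3, ?_⟩
  have ho : Orthonormal ℂ (fun s : G => π (u s) ξ) := by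
    rw [orthonormal_iff_ite]
    intro t s
    have h3 : inner ℂ (π (u t) ξ) (π (u s) ξ) = θ (u (t⁻¹ * s)) := by
      rw [← hπ, map_mul u, map_mul π, ← star_u' huu, map_star π]
      change _ = inner ℂ ξ (star (π (u t)) (π (u s) ξ))
      rw [star_ap]
    rw [h3]
    by_cases hts : t = s
    · subst hts
      simp [h1]
    · rw [if_neg hts, htr]
      intro h2
      exact hts (inv_mul_eq_one.1 h2)
  refine ⟨⟨π, ξ, ho.orthogonalFamily.linearIsometry, hπ, fun s => ?_⟩⟩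
  simp [dl]

lemma exists_GD (hG : S_GNS) (h : TrData G β θ u) :
    ∃ (K : Type) (_ : NormedAddCommGroup K) (_ : InnerProductSpace ℂ K) (_ : CompleteSpace K),
      Nonempty (GD θ u K) := exists_GD' hG h.one h.pos h.uun h.utr

variable (d : GD θ u K)

/-- the adjoint of `W` -/
def Wa (d : GD θ u K) : K →L[ℂ] L2 G := ContinuousLinearMap.adjoint d.W.toContinuousLinearMap

lemma Wa_inner (v : L2 G) (k : K) : inner ℂ v (Wa d k) = inner ℂ (d.W v) k := by
  rw [Wa, ContinuousLinearMap.adjoint_inner_right]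
  rfl

lemma Wa_W (v : L2 G) : Wa d (d.W v) = v := by
  refine ext_inner_left ℂ fun w => ?_
  rw [Wa_inner, LinearIsometry.inner_map_map]

/-- the completely positive map -/
def EE (d : GD θ u K) : (L2 P →L[ℂ] L2 P) →ₗ[ℂ] (L2 G →L[ℂ] L2 G) where
  toFun x := Wa d ∘L d.π x ∘L d.W.toContinuousLinearMap
  map_add' x y := by
    ext1 v
    change Wa d (d.π (x + y) (d.W v)) = Wa d (d.π x (d.W v)) + Wa d (d.π y (d.W v))
    rw [map_add, add_apply, map_add]
  map_smul' c x := by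
    ext1 v
    change Wa d (d.π (c • x) (d.W v)) = c • Wa d (d.π x (d.W v))
    rw [map_smul, smul_apply, map_smul]

lemma EE_apply (x : L2 P →L[ℂ] L2 P) (v : L2 G) : EE d x v = Wa d (d.π x (d.W v)) := rfl

lemma EE_inner (x : L2 P →L[ℂ] L2 P) (v w : L2 G) :
    inner ℂ v (EE d x w) = inner ℂ (d.W v) (d.π x (d.W w)) := by
  rw [EE_apply, Wa_inner]

lemma EE_ucp : UCP (EE d) where
  one := by
    ext1 v
    rw [EE_apply, map_one]
    exact Wa_W d v
  cp n x v := by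
    have h1 : ∀ i j, inner ℂ (v i) (EE d (star (x i) * x j) (v j)) =
        inner ℂ (d.π (x i) (d.W (v i))) (d.π (x j) (d.W (v j))) := by
      intro i j
      rw [EE_inner, map_mul, map_star]
      change inner ℂ (d.W (v i)) (star (d.π (x i)) (d.π (x j) (d.W (v j)))) = _
      rw [star_ap]
    simp only [h1]
    have h2 : (∑ i, ∑ j, inner ℂ (d.π (x i) (d.W (v i))) (d.π (x j) (d.W (v j)))) =
        inner ℂ (∑ i, d.π (x i) (d.W (v i))) (∑ j, d.π (x j) (d.W (v j))) := by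
      rw [sum_inner]
      exact Finset.sum_congr rfl fun i _ => (inner_sum _ _ _).symm
    rw [h2, inner_self_eq_norm_sq_to_K]
    norm_cast
    positivity

lemma EE_dl (h : TrData G β θ u) (x : L2 P →L[ℂ] L2 P) (s t : G) :
    inner ℂ (dl t) (EE d x (dl s)) = θ (star (u t) * x * u s) := by
  rw [EE_inner, d.hW, d.hW, ← d.hθ, map_mul, map_mul, map_star]
  change _ = inner ℂ d.ξ (star (d.π (u t)) (d.π x (d.π (u s) d.ξ)))
  rw [star_ap]

lemma EE_mem (h : TrData G β θ u) (x : L2 P →L[ℂ] L2 P) : EE d x ∈ LG G := by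
  rw [mem_LG_iff]
  intro s t
  rw [cf, EE_dl d h, EE_dl d h, map_one, mul_one]
  have h1 := h.inv s (star (u (t * s⁻¹)) * x)
  rw [← h1]
  congr 1
  have h2 : star (u s) * star (u (t * s⁻¹)) = star (u t) := by
    rw [← star_mul, ← map_mul]
    simp
  rw [← h2]
  simp only [mul_assoc]

/-- the projection onto the range of `W` -/
def Pj (d : GD θ u K) : K →L[ℂ] K := d.W.toContinuousLinearMap ∘L Wa d

lemma Pj_apply (k : K) : Pj d k = d.W (Wa d k) := rfl

lemma Pj_W (v : L2 G) : Pj d (d.W v) = d.W v := by rw [Pj_apply, Wa_W]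

lemma star_Pj : star (Pj d) = Pj d := by
  apply eq_star_of_inner
  intro v w
  rw [Pj_apply, Pj_apply, ← Wa_inner, ← inner_conj_symm, Wa_inner, inner_conj_symm]

/-- the multiplicative domain (within the block diagonal operators) -/
def C1 (β : P → ι) (d : GD θ u K) : StarSubalgebra ℂ (L2 P →L[ℂ] L2 P) :=
  BD β ⊓ (StarSubalgebra.centralizer ℂ {Pj d}).comap d.π

lemma mem_C1 {x : L2 P →L[ℂ] L2 P} :
    x ∈ C1 β d ↔ x ∈ BD β ∧ Pj d * d.π x = d.π x * Pj d := by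
  rw [C1, StarSubalgebra.mem_inf, StarSubalgebra.mem_comap, StarSubalgebra.mem_centralizer_iff]
  constructor
  · rintro ⟨h1, h2⟩
    exact ⟨h1, (h2 _ rfl).1⟩
  · rintro ⟨h1, h2⟩
    refine ⟨h1, fun g hg => ?_⟩
    rw [Set.mem_singleton_iff.1 hg, star_Pj]
    exact ⟨h2, h2⟩

lemma C1_le : C1 β d ≤ BD β := inf_le_left

lemma closed_C1 (hB : S_BDM) : IsClosed (C1 β d : Set (L2 P →L[ℂ] L2 P)) := by
  have h1 : (C1 β d : Set (L2 P →L[ℂ] L2 P)) =
      (BD β : Set (L2 P →L[ℂ] L2 P)) ∩ {x | Pj d * d.π x = d.π x * Pj d} := by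
    ext x
    exact mem_C1 d
  rw [h1]
  refine (hB P ι β).2.1.inter ?_
  have hc : Continuous fun x => d.π x := map_continuous d.π
  exact isClosed_eq (continuous_const.mul hc) (hc.mul continuous_const)

lemma W_EE {x : L2 P →L[ℂ] L2 P} (hx : x ∈ C1 β d) (v : L2 G) :
    d.W (EE d x v) = d.π x (d.W v) := by
  have h1 := congrArg (fun T : K →L[ℂ] K => T (d.W v)) ((mem_C1 d).1 hx).2
  change Pj d (d.π x (d.W v)) = d.π x (Pj d (d.W v)) at h1
  rw [Pj_W, Pj_apply] at h1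
  exact h1

lemma EE_mul {x y : L2 P →L[ℂ] L2 P} (hy : y ∈ C1 β d) :
    EE d (x * y) = EE d x * EE d y := by
  ext1 v
  change Wa d (d.π (x * y) (d.W v)) = Wa d (d.π x (d.W (EE d y v)))
  rw [W_EE d hy, map_mul]
  rfl

/-- the ideal -/
def JJ (β : P → ι) (d : GD θ u K) : Submodule ℂ (L2 P →L[ℂ] L2 P) where
  carrier := {x | x ∈ BD β ∧ d.π x d.ξ = 0}
  zero_mem' := ⟨zero_mem _, by rw [map_zero]; rfl⟩
  add_mem' := by
    rintro x y ⟨h1, h2⟩ ⟨h3, h4⟩
    refine ⟨add_mem h1 h3, ?_⟩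
    rw [map_add, add_apply, h2, h4, add_zero]
  smul_mem' := by
    rintro c x ⟨h1, h2⟩
    refine ⟨(BD β).smul_mem h1 c, ?_⟩
    rw [map_smul, smul_apply, h2, smul_zero]

lemma mem_JJ {x : L2 P →L[ℂ] L2 P} : x ∈ JJ β d ↔ x ∈ BD β ∧ d.π x d.ξ = 0 := Iff.rfl

lemma norm_pi (x : L2 P →L[ℂ] L2 P) : (‖d.π x d.ξ‖ ^ 2 : ℂ) = θ (star x * x) := by
  rw [← d.hθ, map_mul, map_star]
  change _ = inner ℂ d.ξ (star (d.π x) (d.π x d.ξ))
  rw [star_ap, inner_self_eq_norm_sq_to_K]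
  rfl

lemma pi_eq_zero_iff {x : L2 P →L[ℂ] L2 P} : d.π x d.ξ = 0 ↔ θ (star x * x) = 0 := by
  rw [← norm_pi d]
  constructor
  · intro h; simp [h]
  · intro h
    have : (‖d.π x d.ξ‖ : ℂ) = 0 := by simpa using h
    exact norm_eq_zero.1 (by exact_mod_cast this)

lemma JJ_mul {x j : L2 P →L[ℂ] L2 P} (hx : x ∈ BD β) (hj : j ∈ JJ β d) : x * j ∈ JJ β d := by
  refine ⟨mul_mem hx hj.1, ?_⟩
  rw [map_mul]
  change d.π x (d.π j d.ξ) = 0
  rw [hj.2, map_zero]

lemma JJ_star (h : TrData G β θ u) {j : L2 P →L[ℂ] L2 P} (hj : j ∈ JJ β d) :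
    star j ∈ JJ β d := by
  refine ⟨star_mem hj.1, ?_⟩
  rw [pi_eq_zero_iff d, star_star, h.tr j hj.1 _ (star_mem hj.1), ← pi_eq_zero_iff d]
  exact hj.2

lemma JJ_W (h : TrData G β θ u) {j : L2 P →L[ℂ] L2 P} (hj : j ∈ JJ β d) (v : L2 G) :
    d.π j (d.W v) = 0 := by
  have h1 : EE d (star j * j) = 0 := by
    apply op_ext_inner
    intro t s
    rw [EE_dl d h]
    have h2 : j * u s ∈ JJ β d := by
      have := JJ_star d h (JJ_mul d (star_mem (h.uBD s)) (JJ_star d h hj))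
      rwa [star_mul, star_star, star_star] at this
    have h3 : star (u t) * (star j * j) * u s = star (j * u t) * (j * u s) := by
      rw [star_mul]
      simp only [mul_assoc]
    rw [h3, ← d.hθ, map_mul]
    change inner ℂ d.ξ (d.π (star (j * u t)) (d.π (j * u s) d.ξ)) = _
    rw [h2.2, map_zero, inner_zero_right]
    change (0 : ℂ) = inner ℂ (dl t) (0 : L2 G)
    rw [inner_zero_right]
  have h2 : inner ℂ v (EE d (star j * j) v) = 0 := by
    rw [h1]
    change inner ℂ v (0 : L2 G) = 0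
    rw [inner_zero_right]
  rw [EE_inner, map_mul, map_star] at h2
  change inner ℂ (d.W v) (star (d.π j) (d.π j (d.W v))) = 0 at h2
  rw [star_ap] at h2
  exact inner_self_eq_zero.1 h2

lemma JJ_C1 (h : TrData G β θ u) {j : L2 P →L[ℂ] L2 P} (hj : j ∈ JJ β d) : j ∈ C1 β d := by
  rw [mem_C1]
  refine ⟨hj.1, ?_⟩
  have h1 : ∀ j ∈ JJ β d, d.π j * Pj d = 0 := by
    intro j hj
    ext1 k
    change d.π j (d.W (Wa d k)) = 0
    exact JJ_W d h hj _
  have h2 : Pj d * d.π j = 0 := by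
    have := congrArg star (h1 _ (JJ_star d h hj))
    rwa [star_mul, star_Pj, ← map_star, star_star, star_zero] at this
  rw [h1 j hj, h2]

lemma EE_JJ (h : TrData G β θ u) {j : L2 P →L[ℂ] L2 P} (hj : j ∈ JJ β d) : EE d j = 0 := by
  ext1 v
  rw [EE_apply, JJ_W d h hj, map_zero]
  rfl

lemma JJ_of_EE {c : L2 P →L[ℂ] L2 P} (hc : c ∈ C1 β d) (h0 : EE d c = 0) : c ∈ JJ β d := by
  refine ⟨C1_le d hc, ?_⟩
  have h1 := W_EE d hc (dl 1)
  rw [h0, d.hW, map_one, map_one] at h1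
  change d.W 0 = d.π c d.ξ at h1
  rw [← h1, map_zero]

/-- the quotient map -/
def qq (β : P → ι) (d : GD θ u K) : C1 β d →⋆ₐ[ℂ] (L2 G →L[ℂ] L2 G) where
  toFun c := EE d c.1
  map_one' := (EE_ucp d).one
  map_mul' x y := EE_mul d y.2
  map_zero' := map_zero _
  map_add' x y := map_add _ _ _
  commutes' r := by
    change EE d (algebraMap ℂ _ r) = _
    rw [Algebra.algebraMap_eq_smul_one, map_smul, (EE_ucp d).one, Algebra.algebraMap_eq_smul_one]
  map_star' x := (EE_ucp d).star_map x.1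

/-- elements with the right square are in the multiplicative domain -/
lemma sat_C1 (h : TrData G β θ u) {x : L2 P →L[ℂ] L2 P} (hx : x ∈ BD β) (hs : star x = x)
    {y : L2 G →L[ℂ] L2 G} (hy : star y = y) (h1 : EE d x = y) (h2 : EE d (x * x) = y * y) :
    x ∈ C1 β d := by
  have key : ∀ v, d.W (EE d x v) = d.π x (d.W v) := by
    intro v
    have h3 : inner ℂ v (EE d (x * x) v) = inner ℂ (d.π x (d.W v)) (d.π x (d.W v)) := by
      rw [EE_inner, map_mul]
      change inner ℂ (d.W v) (d.π x (d.π x (d.W v))) = _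
      nth_rewrite 1 [← hs]
      rw [map_star, star_ap]
    have h4 : inner ℂ v (EE d (x * x) v) = inner ℂ (EE d x v) (EE d x v) := by
      rw [h2, h1]
      change inner ℂ v (y (y v)) = _
      nth_rewrite 1 [← hy]
      rw [star_ap]
    have h5 : ‖d.W (EE d x v) - d.π x (d.W v)‖ ^ 2 = 0 := by
      have h6 : inner ℂ (d.W (EE d x v)) (d.π x (d.W v)) = inner ℂ (EE d x v) (EE d x v) := by
        rw [← EE_inner]
      have h7 : ‖d.π x (d.W v)‖ ^ 2 = ‖EE d x v‖ ^ 2 := by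
        have h8 := h3.symm.trans h4
        rw [inner_self_eq_norm_sq_to_K, inner_self_eq_norm_sq_to_K] at h8
        exact_mod_cast h8
      rw [norm_sub_sq (𝕜 := ℂ), h6, h7, LinearIsometry.norm_map, inner_self_eq_norm_sq_to_K]
      norm_cast
      ring
    exact sub_eq_zero.1 (norm_eq_zero.1 (pow_eq_zero_iff (two_ne_zero)|>.1 h5))
  rw [mem_C1]
  refine ⟨hx, ?_⟩
  have h3 : Pj d * d.π x * Pj d = d.π x * Pj d := by
    ext1 k
    change Pj d (d.π x (d.W (Wa d k))) = d.π x (d.W (Wa d k))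
    rw [← key, Pj_W]
  have h4 := congrArg star h3
  rw [star_mul, star_mul, star_mul, star_Pj, ← map_star, hs, ← mul_assoc, h3] at h4
  exact h4.symm

end gd

end

end Pool.Agent.N557.QW
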