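import Pool.Agent.N557.QW.PM2

/-!
# The algebra `C₁` has the weak expectation property; `L(G)` is QWEP
-/

set_option autoImplicit false
set_option linter.unusedSectionVars false

namespace Pool.Agent.N557.QW

open Pool.Agent.H494R3.GT
open Pool.Agent.N859.QW (WEP QWEP)
open scoped ComplexOrder CStarAlgebra

noncomputable section

lemma closed_VN {H : Type} [NormedAddCommGroup H] [InnerProductSpace ℂ H] [CompleteSpace H]
    (M : VonNeumannAlgebra H) : IsClosed (M.toStarSubalgebra : Set (H →L[ℂ] H)) := by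
  have h1 : (M.toStarSubalgebra : Set (H →L[ℂ] H)) =
      Set.centralizer (Set.centralizer (M : Set (H →L[ℂ] H))) := by
    rw [VonNeumannAlgebra.centralizer_centralizer]
    rfl
  rw [h1]
  have h2 : ∀ S : Set (H →L[ℂ] H), IsClosed (Set.centralizer S) := by
    intro S
    have : Set.centralizer S = ⋂ s ∈ S, {x : H →L[ℂ] H | s * x = x * s} := by
      ext x
      simp [Set.mem_centralizer_iff]
    rw [this]
    exact isClosed_biInter fun s _ =>
      isClosed_eq (continuous_const.mul continuous_id) (continuous_id.mul continuous_const)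
  exact h2 _

/-- a star homomorphism is completely positive -/
lemma hom_cp {A : Type} [Ring A] [StarRing A] [Algebra ℂ A] {H : Type} [NormedAddCommGroup H]
    [InnerProductSpace ℂ H] [CompleteSpace H] (Ψ : A →ₗ[ℂ] (H →L[ℂ] H))
    (h1 : ∀ x y, Ψ (x * y) = Ψ x * Ψ y) (h2 : ∀ x, Ψ (star x) = star (Ψ x))
    (n : ℕ) (x : Fin n → A) (v : Fin n → H) :
    0 ≤ ∑ i, ∑ j, inner ℂ (v i) (Ψ (star (x i) * x j) (v j)) := by
  have h3 : ∀ i j, inner ℂ (v i) (Ψ (star (x i) * x j) (v j)) =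
      inner ℂ (Ψ (x i) (v i)) (Ψ (x j) (v j)) := by
    intro i j
    rw [h1, h2]
    change inner ℂ (v i) (star (Ψ (x i)) (Ψ (x j) (v j))) = _
    rw [star_ap]
  simp only [h3]
  have h4 : (∑ i, ∑ j, inner ℂ (Ψ (x i) (v i)) (Ψ (x j) (v j))) =
      inner ℂ (∑ i, Ψ (x i) (v i)) (∑ j, Ψ (x j) (v j)) := by
    rw [sum_inner]
    exact Finset.sum_congr rfl fun i _ => (inner_sum _ _ _).symm
  rw [h4, inner_self_eq_norm_sq_to_K]
  norm_cast
  positivity

/-- compression by an isometry -/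
def cps {H K : Type} [NormedAddCommGroup H] [InnerProductSpace ℂ H] [CompleteSpace H]
    [NormedAddCommGroup K] [InnerProductSpace ℂ K] [CompleteSpace K] (V : K →ₗᵢ[ℂ] H) :
    (H →L[ℂ] H) →ₗ[ℂ] (K →L[ℂ] K) where
  toFun x := ContinuousLinearMap.adjoint V.toContinuousLinearMap ∘L x ∘L V.toContinuousLinearMap
  map_add' x y := by
    ext1 v
    change ContinuousLinearMap.adjoint V.toContinuousLinearMap ((x + y) (V v)) = _
    rw [add_apply, map_add]
    rfl
  map_smul' c x := by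
    ext1 v
    change ContinuousLinearMap.adjoint V.toContinuousLinearMap ((c • x) (V v)) = _
    rw [smul_apply, map_smul]
    rfl

section

variable {H K : Type} [NormedAddCommGroup H] [InnerProductSpace ℂ H] [CompleteSpace H]
    [NormedAddCommGroup K] [InnerProductSpace ℂ K] [CompleteSpace K] (V : K →ₗᵢ[ℂ] H)

lemma cps_inner (x : H →L[ℂ] H) (v w : K) :
    inner ℂ v (cps V x w) = inner ℂ (V v) (x (V w)) := by
  change inner ℂ v (ContinuousLinearMap.adjoint V.toContinuousLinearMap (x (V w))) = _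
  rw [ContinuousLinearMap.adjoint_inner_right]
  rfl

lemma cps_ucp : UCP (cps V) where
  one := by
    ext1 w
    refine ext_inner_left ℂ fun v => ?_
    rw [cps_inner]
    exact LinearIsometry.inner_map_map V v w
  cp n x v := by
    have h1 : ∀ i j, inner ℂ (v i) (cps V (star (x i) * x j) (v j)) =
        inner ℂ (x i (V (v i))) (x j (V (v j))) := by
      intro i j
      rw [cps_inner]
      change inner ℂ (V (v i)) (star (x i) (x j (V (v j)))) = _
      rw [star_ap]
    simp only [h1]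
    have h2 : (∑ i, ∑ j, inner ℂ (x i (V (v i))) (x j (V (v j)))) =
        inner ℂ (∑ i, x i (V (v i))) (∑ j, x j (V (v j))) := by
      rw [sum_inner]
      exact Finset.sum_congr rfl fun i _ => (inner_sum _ _ _).symm
    rw [h2, inner_self_eq_norm_sq_to_K]
    norm_cast
    positivity

end

section main

variable {G : Type} [Group G] {P ι : Type} {β : P → ι} {θ : (L2 P →L[ℂ] L2 P) →ₗ[ℂ] ℂ}
  {u : G →* (L2 P →L[ℂ] L2 P)}
  {K : Type} [NormedAddCommGroup K] [InnerProductSpace ℂ K] [CompleteSpace K]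

lemma EE_surj (h : TrData G β θ u) (d : GD θ u K) {y : L2 G →L[ℂ] L2 G} (hy : y ∈ LG G) :
    ∃ c : C1 β d, EE d c.1 = y := by
  have key : ∀ y ∈ LG G, star y = y → ∃ c : C1 β d, EE d c.1 = y := by
    intro y hy hs
    set r : ℝ := ‖y‖ + 1 with hr
    have hr0 : 0 < r := by positivity
    have hrC : (r : ℂ) ≠ 0 := by exact_mod_cast hr0.ne'
    have h1 : ((r : ℂ)⁻¹ • y) ∈ LG G := (LG G).toStarSubalgebra.smul_mem hy _
    have h2 : star ((r : ℂ)⁻¹ • y) = (r : ℂ)⁻¹ • y := by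
      rw [star_smul, hs]
      congr 1
      simp
    have h3 : ‖(r : ℂ)⁻¹ • y‖ ≤ 1 := by
      rw [norm_smul, norm_inv, Complex.norm_real, Real.norm_of_nonneg hr0.le,
        inv_mul_le_one₀ hr0]
      linarith
    obtain ⟨x, hx, hxs, hx1, hx2⟩ := h.sat _ h1 h2 h3
    have e1 : EE d x = (r : ℂ)⁻¹ • y := by
      apply op_ext_inner
      intro t s
      rw [EE_dl d h, hx1]
    have e2 : EE d (x * x) = ((r : ℂ)⁻¹ • y) * ((r : ℂ)⁻¹ • y) := by
      apply op_ext_inner
      intro t s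
      rw [EE_dl d h, hx2]
    have hc := sat_C1 d h hx hxs h2 e1 e2
    refine ⟨⟨(r : ℂ) • x, (C1 β d).smul_mem hc _⟩, ?_⟩
    change EE d ((r : ℂ) • x) = y
    rw [map_smul, e1, smul_smul, mul_inv_cancel₀ hrC, one_smul]
  obtain ⟨c1, h1⟩ := key (y + star y) (add_mem hy (star_mem hy)) (by
    rw [star_add, star_star, add_comm])
  obtain ⟨c2, h2⟩ := key (Complex.I • (star y - y))
    ((LG G).toStarSubalgebra.smul_mem (sub_mem (star_mem hy) hy) _) (by
      rw [star_smul, star_sub, star_star]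
      have : star Complex.I = -Complex.I := Complex.conj_I
      rw [this, neg_smul, ← smul_neg, neg_sub])
  refine ⟨(1 / 2 : ℂ) • (c1 + Complex.I • c2), ?_⟩
  change EE d ((1 / 2 : ℂ) • (c1.1 + Complex.I • c2.1)) = y
  rw [map_smul, map_add, map_smul, h1, h2, smul_smul, Complex.I_mul_I, neg_smul, one_smul,
    neg_sub]
  have : y + star y + (y - star y) = (2 : ℂ) • y := by
    rw [two_smul]; abel
  rw [this, smul_smul]
  norm_num

lemma range_qq (h : TrData G β θ u) (d : GD θ u K) :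
    Set.range (qq β d) = (LG G : Set (L2 G →L[ℂ] L2 G)) := by
  ext y
  constructor
  · rintro ⟨c, rfl⟩
    exact EE_mem d h c.1
  · intro hy
    obtain ⟨c, hc⟩ := EE_surj h d hy
    exact ⟨c, hc⟩

lemma wep_C1 (hBDM : S_BDM) (hDB : S_DB) (hISO : S_ISO) (hEXT : S_EXT) (hPOS : S_POS)
    (hCPC : S_CPC) (hfin : ∀ b, Finite {p // β p = b}) (h : TrData G β θ u) (d : GD θ u K) :
    WEP (C1 β d) := by
  intro H _ _ _ ρ hρ
  -- the isometry
  have heu : ∀ p q, β p = β q → eu p q ∈ C1 β d := by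
    intro p q hpq
    refine JJ_C1 d h ⟨(hBDM P ι β).2.2.1 p q hpq, ?_⟩
    rw [pi_eq_zero_iff d]
    exact h.mu p q hpq
  obtain ⟨V, hV⟩ := hISO P ι β H (C1 β d) ρ hfin (C1_le d) heu hρ
  obtain ⟨D, hD, hD1, hD2⟩ := hDB P ι β
  obtain ⟨z, Ψ, hz1, hz2, hz3, hz4, hz5, hΨ1, hΨ2, hΨ3, hΨ4⟩ := hEXT (L2 P) H (BD β) (C1 β d)
    (JJ β d) ρ (C1_le d) (fun j hj => JJ_C1 d h hj) (hBDM P ι β).2.1
    (fun x hx j hj => JJ_mul d hx hj) (fun j hj => JJ_star d h hj)
  -- the lift
  have hlift : ∀ y : (LG G).toStarSubalgebra, ∃ c : C1 β d, EE d c.1 = y.1 :=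
    fun y => EE_surj h d y.2
  choose lift hl using hlift
  have hwd : ∀ c c' : C1 β d, EE d c.1 = EE d c'.1 → ρ c * (1 - z) = ρ c' * (1 - z) := by
    intro c c' hcc
    have h1 : (c - c').1 ∈ JJ β d := by
      apply JJ_of_EE d (c - c').2
      change EE d (c.1 - c'.1) = 0
      rw [map_sub, hcc, sub_self]
    have h2 := hz3 (c - c').1 h1
    have h3 : ρ (c - c') * (1 - z) = 0 := by
      rw [mul_sub, mul_one, ← hz4, sub_eq_zero]
      exact h2.symm
    rw [map_sub, sub_mul, sub_eq_zero] at h3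
    exact h3
  have hcom : ∀ c, (1 - z) * ρ c = ρ c * (1 - z) := by
    intro c
    rw [sub_mul, mul_sub, hz4, one_mul, mul_one]
  have hid : (1 - z) * (1 - z) = 1 - z := by
    rw [mul_sub, mul_one, sub_mul, one_mul, hz2, sub_self, sub_zero]
  -- beta
  let bt : (LG G).toStarSubalgebra →ₗ[ℂ] (H →L[ℂ] H) :=
    { toFun := fun y => ρ (lift y) * (1 - z)
      map_add' := fun x y => by
        rw [← add_mul, ← map_add]
        apply hwd
        rw [hl]
        change x.1 + y.1 = EE d ((lift x).1 + (lift y).1)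
        rw [map_add, hl, hl]
      map_smul' := fun c x => by
        change _ = c • (ρ (lift x) * (1 - z))
        rw [← smul_mul_assoc, ← map_smul]
        apply hwd
        rw [hl]
        change c • x.1 = EE d (c • (lift x).1)
        rw [map_smul, hl] }
  have hbt : ∀ c : C1 β d, ∀ hc, bt ⟨EE d c.1, hc⟩ = ρ c * (1 - z) := by
    intro c hc
    apply hwd
    rw [hl]
  have hbt1 : ∀ x y, bt (x * y) = bt x * bt y := by
    intro x y
    change ρ (lift (x * y)) * (1 - z) = ρ (lift x) * (1 - z) * (ρ (lift y) * (1 - z))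
    rw [mul_assoc, ← mul_assoc (1 - z), hcom, mul_assoc, hid, ← mul_assoc, ← map_mul]
    apply hwd
    rw [hl]
    change x.1 * y.1 = EE d ((lift x).1 * (lift y).1)
    rw [EE_mul d (lift y).2, hl, hl]
  have hbt2 : ∀ x, bt (star x) = star (bt x) := by
    intro x
    change ρ (lift (star x)) * (1 - z) = star (ρ (lift x) * (1 - z))
    rw [star_mul, star_sub, star_one, hz1, ← map_star, hcom]
    apply hwd
    rw [hl]
    change star x.1 = EE d (star (lift x).1)
    rw [(EE_ucp d).star_map, hl]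
  -- Theta = D o compression
  have hDm : ∀ x, D x ∈ BD β := by
    intro x
    rw [(hBDM P ι β).1]
    exact fun p q hpq => hD2 x p q hpq
  have hDid : ∀ x ∈ BD β, D x = x := by
    intro x hx
    apply op_ext_inner
    intro p q
    by_cases hpq : β p = β q
    · exact hD1 x p q hpq
    · rw [hD2 x p q hpq, ((hBDM P ι β).1 x).1 hx p q hpq]
  let Θ : (H →L[ℂ] H) →ₗ[ℂ] (L2 P →L[ℂ] L2 P) := D ∘ₗ cps V
  have hΘ : UCP Θ := by
    refine ⟨?_, ?_⟩
    · change D (cps V 1) = 1
      rw [(cps_ucp V).one, hD.one]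
    · intro n x v
      have := cmp_cp hPOS (cps_ucp V) (⊤ : StarSubalgebra ℂ (L2 P →L[ℂ] L2 P))
        (by simp) (fun _ => StarSubalgebra.mem_top) (D ∘ₗ (⊤ : StarSubalgebra ℂ
          (L2 P →L[ℂ] L2 P)).subtype.toAlgHom.toLinearMap)
        (fun n x v => hD.cp n (fun i => (x i).1) v) n x v
      exact this
  have hΘm : ∀ x, Θ x ∈ BD β := fun x => hDm _
  let Φ : (H →L[ℂ] H) →ₗ[ℂ] (H →L[ℂ] H) :=
    { toFun := fun x => Ψ ⟨Θ x, hΘm x⟩ + bt ⟨EE d (Θ x), EE_mem d h _⟩
      map_add' := fun x y => by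
        have h1 : (⟨Θ (x + y), hΘm _⟩ : BD β) = ⟨Θ x, hΘm _⟩ + ⟨Θ y, hΘm _⟩ :=
          Subtype.ext (map_add Θ x y)
        have h2 : (⟨EE d (Θ (x + y)), EE_mem d h _⟩ : (LG G).toStarSubalgebra) =
            ⟨EE d (Θ x), EE_mem d h _⟩ + ⟨EE d (Θ y), EE_mem d h _⟩ := by
          apply Subtype.ext
          change EE d (Θ (x + y)) = EE d (Θ x) + EE d (Θ y)
          rw [map_add, map_add]
        rw [h1, h2, map_add, map_add]
        abel
      map_smul' := fun c x => by
        have h1 : (⟨Θ (c • x), hΘm _⟩ : BD β) = c • ⟨Θ x, hΘm _⟩ :=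
          Subtype.ext (map_smul Θ c x)
        have h2 : (⟨EE d (Θ (c • x)), EE_mem d h _⟩ : (LG G).toStarSubalgebra) =
            c • ⟨EE d (Θ x), EE_mem d h _⟩ := by
          apply Subtype.ext
          change EE d (Θ (c • x)) = c • EE d (Θ x)
          rw [map_smul, map_smul]
        rw [h1, h2, map_smul, map_smul, ← smul_add]
        rfl }
  have hΦc : ∀ x : H →L[ℂ] H, ∀ c (hc : c ∈ C1 β d), Θ x = c → Φ x = ρ ⟨c, hc⟩ := by
    intro x c hc hx
    change Ψ ⟨Θ x, hΘm x⟩ + bt ⟨EE d (Θ x), EE_mem d h _⟩ = _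
    have h1 : (⟨Θ x, hΘm x⟩ : BD β) = ⟨c, C1_le d hc⟩ := Subtype.ext hx
    have h2 : (⟨EE d (Θ x), EE_mem d h _⟩ : (LG G).toStarSubalgebra) =
        ⟨EE d c, EE_mem d h _⟩ := by
      apply Subtype.ext
      change EE d (Θ x) = EE d c
      rw [hx]
    rw [h1, h2, hΨ2 c hc, hbt ⟨c, hc⟩, ← mul_add, add_sub_cancel, mul_one]
  have hΦ : UCP Φ := by
    refine ⟨?_, ?_⟩
    · rw [hΦc 1 1 (one_mem _) hΘ.one]
      exact map_one ρ
    · intro n x v
      have h1 := cmp_cp hPOS hΘ (BD β) (hBDM P ι β).2.1 hΘm Ψ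
        (hom_cp Ψ hΨ3 hΨ4) n x v
      -- the second summand
      have hEΘ : UCP (EE d ∘ₗ Θ) := by
        refine ⟨?_, ?_⟩
        · change EE d (Θ 1) = 1
          rw [hΘ.one, (EE_ucp d).one]
        · intro n x v
          have := cmp_cp hPOS hΘ (⊤ : StarSubalgebra ℂ (L2 P →L[ℂ] L2 P))
            (by simp) (fun _ => StarSubalgebra.mem_top) (EE d ∘ₗ (⊤ : StarSubalgebra ℂ
              (L2 P →L[ℂ] L2 P)).subtype.toAlgHom.toLinearMap)
            (fun n x v => (EE_ucp d).cp n (fun i => (x i).1) v) n x v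
          exact this
      have h2 := cmp_cp hPOS hEΘ (LG G).toStarSubalgebra (closed_VN _)
        (fun x => EE_mem d h _) bt (hom_cp bt hbt1 hbt2) n x v
      have h3 := add_nonneg h1 h2
      rw [← Finset.sum_add_distrib] at h3
      convert h3 using 2 with i
      rw [← Finset.sum_add_distrib]
      refine Finset.sum_congr rfl fun j _ => ?_
      rw [← inner_add_right]
      rfl
  obtain ⟨Φ', hΦ'⟩ := hCPC H H Φ hΦ
  refine ⟨Φ', ?_, ?_, ?_⟩
  · rw [hΦ', hΦ.one]
  · intro T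
    rw [hΦ']
    change Ψ ⟨Θ T, hΘm T⟩ + bt ⟨EE d (Θ T), EE_mem d h _⟩ ∈ _
    refine Set.add_mem_centralizer (hΨ1 _) ?_
    change ρ _ * (1 - z) ∈ _
    refine Set.mul_mem_centralizer ?_ ?_
    · intro T hT
      exact (hT _ ⟨_, rfl⟩).symm
    · intro T hT
      have := hz5 T hT
      rw [mul_sub, sub_mul, this, mul_one, one_mul]
  · intro b
    rw [hΦ', hΦc (ρ b) b.1 b.2]
    change D (cps V (ρ b)) = b.1
    have h1 : cps V (ρ b) = b.1 := by
      ext1 w
      refine ext_inner_left ℂ fun v => ?_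
      rw [cps_inner, hV, LinearIsometry.inner_map_map]
    rw [h1, hDid _ (C1_le d b.2)]

theorem qwep_of_data (hBDM : S_BDM) (hDB : S_DB) (hISO : S_ISO) (hGNS : S_GNS) (hEXT : S_EXT)
    (hPOS : S_POS) (hCPC : S_CPC) (hfin : ∀ b, Finite {p // β p = b}) (h : TrData G β θ u) :
    QWEP (LG G) := by
  obtain ⟨K, _, _, _, ⟨d⟩⟩ := exists_GD hGNS h
  exact ⟨L2 P, inferInstance, inferInstance, inferInstance, C1 β d, qq β d,
    closed_C1 d hBDM, wep_C1 hBDM hDB hISO hEXT hPOS hCPC hfin h d, range_qq h d⟩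

end main

end

end Pool.Agent.N557.QW
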