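import Pool.Agent.N557.QW.PM2

/-!
# Limits along an ultrafilter, normalised traces
-/

set_option autoImplicit false
set_option linter.unusedSectionVars false

namespace Pool.Agent.N557.QW

open Pool.Agent.H494R3.GT
open Filter Topology
open scoped ComplexOrder

noncomputable section

section ul

variable {I : Type} (𝒰 : Ultrafilter I)

/-- the limit of a bounded function along an ultrafilter -/
def ul (f : I → ℂ) : ℂ := limUnder (𝒰 : Filter I) f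

lemma ul_tendsto {f : I → ℂ} {M : ℝ} (h : ∀ i, ‖f i‖ ≤ M) :
    Tendsto f 𝒰 (𝓝 (ul 𝒰 f)) := by
  have hc : IsCompact (Metric.closedBall (0 : ℂ) M) := isCompact_closedBall 0 M
  have h1 : (𝒰.map f : Filter ℂ) ≤ 𝓟 (Metric.closedBall (0 : ℂ) M) := by
    rw [le_principal_iff]
    change ∀ᶠ i in (𝒰 : Filter I), f i ∈ Metric.closedBall (0 : ℂ) M
    exact Filter.Eventually.of_forall fun i => by simpa using h i
  obtain ⟨c, -, hc2⟩ := hc.ultrafilter_le_nhds (𝒰.map f) h1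
  exact tendsto_nhds_limUnder ⟨c, hc2⟩

lemma ul_eq {f : I → ℂ} {c : ℂ} (h : Tendsto f 𝒰 (𝓝 c)) : ul 𝒰 f = c := h.limUnder_eq

lemma ul_add {f g : I → ℂ} {M N : ℝ} (hf : ∀ i, ‖f i‖ ≤ M) (hg : ∀ i, ‖g i‖ ≤ N) :
    ul 𝒰 (fun i => f i + g i) = ul 𝒰 f + ul 𝒰 g :=
  ul_eq 𝒰 ((ul_tendsto 𝒰 hf).add (ul_tendsto 𝒰 hg))

lemma ul_smul {f : I → ℂ} {M : ℝ} (hf : ∀ i, ‖f i‖ ≤ M) (c : ℂ) :
    ul 𝒰 (fun i => c * f i) = c * ul 𝒰 f :=
  ul_eq 𝒰 ((ul_tendsto 𝒰 hf).const_mul c)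

lemma ul_const (c : ℂ) : ul 𝒰 (fun _ : I => c) = c := ul_eq 𝒰 tendsto_const_nhds

lemma ul_norm {f : I → ℂ} {M : ℝ} (hf : ∀ i, ‖f i‖ ≤ M) : ‖ul 𝒰 f‖ ≤ M :=
  le_of_tendsto' (ul_tendsto 𝒰 hf).norm hf

lemma ul_nonneg {f : I → ℂ} {M : ℝ} (hf : ∀ i, ‖f i‖ ≤ M) (h : ∀ i, 0 ≤ f i) : 0 ≤ ul 𝒰 f :=
  ge_of_tendsto' (ul_tendsto 𝒰 hf) h

lemma ul_congr_ev {f : I → ℂ} {c : ℂ} (h : ∀ᶠ i in (𝒰 : Filter I), f i = c) : ul 𝒰 f = c :=
  ul_eq 𝒰 (tendsto_const_nhds.congr' (h.mono fun _ hi => hi.symm))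

end ul

section tau

variable {P X : Type} [Fintype X] [Nonempty X]

/-- the normalised trace of a block -/
def ta (e : X → P) : (L2 P →L[ℂ] L2 P) →ₗ[ℂ] ℂ where
  toFun x := (Fintype.card X : ℂ)⁻¹ * ∑ q, inner ℂ (dl (e q)) (x (dl (e q)))
  map_add' x y := by
    simp only [add_apply, inner_add_right, Finset.sum_add_distrib, mul_add]
  map_smul' c x := by
    simp only [smul_apply, inner_smul_right, ← Finset.mul_sum, RingHom.id_apply,
      smul_eq_mul]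
    ring

variable (e : X → P)

lemma norm_dl (p : P) : ‖(dl p : L2 P)‖ = 1 := by
  classical
  have h := inner_self_eq_norm_sq_to_K (𝕜 := ℂ) (dl p : L2 P)
  rw [dl_inner, if_pos rfl] at h
  have h2 : ‖(dl p : L2 P)‖ ^ 2 = 1 := by
    have h3 : ((‖(dl p : L2 P)‖ ^ 2 : ℝ) : ℂ) = 1 := by
      push_cast
      exact h.symm
    exact_mod_cast h3
  nlinarith [norm_nonneg (dl p : L2 P), sq_nonneg (‖(dl p : L2 P)‖ - 1)]

lemma ta_norm (x : L2 P →L[ℂ] L2 P) : ‖ta e x‖ ≤ ‖x‖ := by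
  change ‖(Fintype.card X : ℂ)⁻¹ * ∑ q, inner ℂ (dl (e q)) (x (dl (e q)))‖ ≤ ‖x‖
  have hX : (0 : ℝ) < Fintype.card X := by exact_mod_cast Fintype.card_pos
  rw [norm_mul, norm_inv, Complex.norm_natCast, inv_mul_le_iff₀ hX]
  refine (norm_sum_le _ _).trans ?_
  have : ∀ q ∈ (Finset.univ : Finset X), ‖inner ℂ (dl (e q)) (x (dl (e q)))‖ ≤ ‖x‖ := by
    intro q _
    refine (norm_inner_le_norm _ _).trans ?_
    rw [norm_dl, one_mul]
    refine (x.le_opNorm _).trans ?_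
    rw [norm_dl, mul_one]
  refine (Finset.sum_le_card_nsmul _ _ _ this).trans ?_
  simp

lemma ta_one : ta e 1 = 1 := by
  classical
  change (Fintype.card X : ℂ)⁻¹ * ∑ q, inner ℂ (dl (e q)) (dl (e q)) = 1
  have : ∀ q : X, inner ℂ (dl (e q) : L2 P) (dl (e q)) = (1 : ℂ) := by
    intro q; rw [dl_inner, if_pos rfl]
  simp only [this, Finset.sum_const, Finset.card_univ, nsmul_eq_mul, mul_one]
  have hX : (Fintype.card X : ℂ) ≠ 0 := by exact_mod_cast Fintype.card_ne_zero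
  exact inv_mul_cancel₀ hX

lemma ta_pos (x : L2 P →L[ℂ] L2 P) : 0 ≤ ta e (star x * x) := by
  change 0 ≤ (Fintype.card X : ℂ)⁻¹ * ∑ q, inner ℂ (dl (e q)) (star x (x (dl (e q))))
  have h1 : ∀ q, inner ℂ (dl (e q)) (star x (x (dl (e q)))) = ((‖x (dl (e q))‖ ^ 2 : ℝ) : ℂ) := by
    intro q
    rw [star_ap, inner_self_eq_norm_sq_to_K]
    norm_cast
  simp only [h1]
  have h2 : (0 : ℂ) ≤ (((Fintype.card X : ℝ)⁻¹ * ∑ q, ‖x (dl (e q))‖ ^ 2 : ℝ) : ℂ) := by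
    exact_mod_cast (by positivity :
      (0 : ℝ) ≤ (Fintype.card X : ℝ)⁻¹ * ∑ q, ‖x (dl (e q))‖ ^ 2)
  simpa using h2

/-- invariance -/
lemma ta_inv (σ : Equiv.Perm P) (τ : Equiv.Perm X) (hτ : ∀ q, σ (e q) = e (τ q))
    (x : L2 P →L[ℂ] L2 P) : ta e (star (UU σ) * x * UU σ) = ta e x := by
  change (Fintype.card X : ℂ)⁻¹ * ∑ q, inner ℂ (dl (e q)) (star (UU σ) (x (UU σ (dl (e q))))) =
    (Fintype.card X : ℂ)⁻¹ * ∑ q, inner ℂ (dl (e q)) (x (dl (e q)))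
  congr 1
  have h1 : ∀ q, inner ℂ (dl (e q)) (star (UU σ) (x (UU σ (dl (e q))))) =
      inner ℂ (dl (e (τ q))) (x (dl (e (τ q)))) := by
    intro q
    rw [star_ap, UU_dl, hτ]
  simp only [h1]
  exact Equiv.sum_comp τ fun q => inner ℂ (dl (e q)) (x (dl (e q)))

lemma ta_free (σ : Equiv.Perm P) (h : ∀ q, σ (e q) ≠ e q) : ta e (UU σ) = 0 := by
  classical
  change (Fintype.card X : ℂ)⁻¹ * ∑ q, inner ℂ (dl (e q)) (UU σ (dl (e q))) = 0
  have h1 : ∀ q, inner ℂ (dl (e q)) (UU σ (dl (e q))) = (0 : ℂ) := by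
    intro q
    rw [UU_dl, dl_inner, if_neg (fun h2 => h q h2.symm)]
  simp [h1]

variable {ι : Type} {β : P → ι}

lemma bd_expand (hB : S_BDM) (he : Function.Injective e) {b : ι}
    (hb : ∀ p, β p = b ↔ p ∈ Set.range e) {y : L2 P →L[ℂ] L2 P} (hy : y ∈ BD β) (q : X) :
    y (dl (e q)) = ∑ q' : X, inner ℂ (dl (e q')) (y (dl (e q))) • (dl (e q') : L2 P) := by
  classical
  refine vec_ext fun p => ?_
  rw [← inner_dl, ← inner_dl, inner_sum]
  simp only [inner_smul_right, dl_inner]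
  by_cases hp : β p = b
  · obtain ⟨r, rfl⟩ := (hb p).1 hp
    rw [Finset.sum_eq_single r]
    · simp
    · intro q' _ hq'
      rw [if_neg (fun h => hq' (he h.symm)), mul_zero]
    · intro h; exact absurd (Finset.mem_univ r) h
  · have h1 : inner ℂ (dl p) (y (dl (e q))) = 0 := by
      apply ((hB P ι β).1 y).1 hy
      rw [(hb (e q)).2 ⟨q, rfl⟩]
      exact hp
    rw [h1]
    symm
    apply Finset.sum_eq_zero
    intro q' _
    rw [if_neg, mul_zero]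
    intro h
    exact hp ((hb p).2 ⟨q', h.symm⟩)

lemma ta_tr (hB : S_BDM) (he : Function.Injective e) {b : ι}
    (hb : ∀ p, β p = b ↔ p ∈ Set.range e) {x y : L2 P →L[ℂ] L2 P} (hx : x ∈ BD β)
    (hy : y ∈ BD β) : ta e (x * y) = ta e (y * x) := by
  change (Fintype.card X : ℂ)⁻¹ * ∑ q, inner ℂ (dl (e q)) (x (y (dl (e q)))) =
    (Fintype.card X : ℂ)⁻¹ * ∑ q, inner ℂ (dl (e q)) (y (x (dl (e q))))
  congr 1
  have h1 : ∀ (x y : L2 P →L[ℂ] L2 P), y ∈ BD β → ∀ q,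
      inner ℂ (dl (e q)) (x (y (dl (e q)))) =
      ∑ q', inner ℂ (dl (e q')) (y (dl (e q))) * inner ℂ (dl (e q)) (x (dl (e q'))) := by
    intro x y hy q
    nth_rewrite 1 [bd_expand e hB he hb hy q]
    rw [map_sum, inner_sum]
    exact Finset.sum_congr rfl fun q' _ => by rw [map_smul, inner_smul_right]
  simp only [h1 x y hy, h1 y x hx]
  rw [Finset.sum_comm]
  exact Finset.sum_congr rfl fun q _ => Finset.sum_congr rfl fun q' _ => mul_comm _ _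

end tau

end

end Pool.Agent.N557.QW
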