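import Pool.Agent.N557.QW.RFD1
import Pool.Agent.N557.QW.PM3

/-!
# The data for a residually finite group
-/

set_option autoImplicit false
set_option linter.unusedSectionVars false

namespace Pool.Agent.N557.QW

open Pool.Agent.H494R3.GT
open Filter Topology
open scoped ComplexOrder

noncomputable section

/-- finite quotients for a residually finite group -/
structure FQ (G : Type) [Group G] where
  Q : Finset G → Type
  gr : ∀ F, Group (Q F)
  ft : ∀ F, Fintype (Q F)
  f : ∀ F, G →* Q F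
  inj : ∀ F, Set.InjOn (f F) F

attribute [instance] FQ.gr FQ.ft

lemma RF.exists_FQ {G : Type} [Group G] (h : RF G) : Nonempty (FQ G) := by
  classical
  choose Q gr fn f hf using h
  exact ⟨⟨Q, gr, fun F => Fintype.ofFinite _, f, hf⟩⟩

variable {G : Type} [Group G] (q : FQ G)

/-- the index set -/
abbrev Ix (G : Type) : Type := Finset G × ℕ

/-- the inner point set -/
abbrev P1 (q : FQ G) : Type := Σ i : Ix G, q.Q i.1

/-- the point set -/
abbrev P2 (q : FQ G) : Type := Σ _ : Ix G, P1 q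

/-- the action of `G` on the inner point set -/
def a1 : G →* Equiv.Perm (P1 q) where
  toFun g := Equiv.sigmaCongrRight fun i => Equiv.mulLeft (q.f i.1 g)
  map_one' := by
    refine Equiv.ext fun ⟨i, x⟩ => ?_
    change (⟨i, q.f i.1 1 * x⟩ : P1 q) = ⟨i, x⟩
    rw [map_one, one_mul]
  map_mul' g h := by
    refine Equiv.ext fun ⟨i, x⟩ => ?_
    change (⟨i, q.f i.1 (g * h) * x⟩ : P1 q) = ⟨i, q.f i.1 g * (q.f i.1 h * x)⟩
    rw [map_mul, mul_assoc]

lemma a1_apply (g : G) (i : Ix G) (x : q.Q i.1) : a1 q g ⟨i, x⟩ = ⟨i, q.f i.1 g * x⟩ := rfl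

/-- the action of `G` on the point set -/
def a2 : G →* Equiv.Perm (P2 q) where
  toFun g := Equiv.sigmaCongrRight fun _ => a1 q g
  map_one' := by
    rw [map_one]; rfl
  map_mul' g h := by
    rw [map_mul]; rfl

lemma a2_apply (g : G) (k : Ix G) (p : P1 q) : a2 q g ⟨k, p⟩ = ⟨k, a1 q g p⟩ := rfl

/-- permutation representations -/
def prm {P : Type} (a : G →* Equiv.Perm P) : G →* (L2 P →L[ℂ] L2 P) where
  toFun g := UU (a g)
  map_one' := by rw [map_one, UU_one]
  map_mul' g h := by rw [map_mul, UU_mul]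

lemma prm_apply {P : Type} (a : G →* Equiv.Perm P) (g : G) : prm a g = UU (a g) := rfl

lemma prm_un {P : Type} (a : G →* Equiv.Perm P) (g : G) : star (prm a g) * prm a g = 1 := by
  rw [prm_apply, star_UU, UU_mul, inv_mul_cancel, UU_one]

instance (G : Type) : (atTop : Filter (Ix G)).NeBot := by
  classical
  infer_instance

/-- the ultrafilter -/
def UF (G : Type) : Ultrafilter (Ix G) := Ultrafilter.of (atTop : Filter (Ix G))

lemma UF_le : ((UF G : Ultrafilter (Ix G)) : Filter (Ix G)) ≤ atTop := Ultrafilter.of_le _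

lemma ev_mem (F : Finset G) (n : ℕ) :
    ∀ᶠ i in (UF G : Filter (Ix G)), F ⊆ i.1 ∧ n ≤ i.2 := by
  have h : ∀ᶠ i in (atTop : Filter (Ix G)), (F, n) ≤ i := eventually_ge_atTop _
  exact UF_le (h.mono fun i hi => ⟨hi.1, hi.2⟩)

/-- inner blocks -/
def e1 (i : Ix G) : q.Q i.1 → P1 q := fun x => ⟨i, x⟩

/-- the inner state -/
def th1 : (L2 (P1 q) →L[ℂ] L2 (P1 q)) →ₗ[ℂ] ℂ where
  toFun x := ul (UF G) (fun i => ta (e1 q i) x)
  map_add' x y := by
    simp only [map_add]
    exact ul_add _ (fun i => ta_norm (e1 q i) x) (fun i => ta_norm (e1 q i) y)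
  map_smul' c x := by
    simp only [map_smul, smul_eq_mul, RingHom.id_apply]
    exact ul_smul _ (fun i => ta_norm (e1 q i) x) c

lemma th1_apply (x : L2 (P1 q) →L[ℂ] L2 (P1 q)) :
    th1 q x = ul (UF G) (fun i => ta (e1 q i) x) := rfl

lemma th1_norm (x : L2 (P1 q) →L[ℂ] L2 (P1 q)) : ‖th1 q x‖ ≤ ‖x‖ :=
  ul_norm _ fun i => ta_norm (e1 q i) x

lemma th1_one : th1 q 1 = 1 := by
  rw [th1_apply]
  simp only [ta_one]
  exact ul_const _ _

lemma th1_pos (x : L2 (P1 q) →L[ℂ] L2 (P1 q)) : 0 ≤ th1 q (star x * x) :=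
  ul_nonneg _ (fun i => ta_norm (e1 q i) _) fun i => ta_pos (e1 q i) x

lemma th1_inv (g : G) (x : L2 (P1 q) →L[ℂ] L2 (P1 q)) :
    th1 q (star (prm (a1 q) g) * x * prm (a1 q) g) = th1 q x := by
  rw [th1_apply, th1_apply]
  congr 1
  funext i
  exact ta_inv (e1 q i) (a1 q g) (Equiv.mulLeft (q.f i.1 g)) (fun x => rfl) x

lemma th1_tr (g : G) (hg : g ≠ 1) : th1 q (prm (a1 q) g) = 0 := by
  classical
  rw [th1_apply]
  apply ul_congr_ev
  refine (ev_mem {1, g} 0).mono fun i hi => ?_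
  refine ta_free (e1 q i) (a1 q g) fun x => ?_
  rw [e1, a1_apply]
  intro h
  have h1 : q.f i.1 g * x = x := by
    have := (Sigma.mk.inj_iff.1 h).2
    exact eq_of_heq this
  have h2 : q.f i.1 g = q.f i.1 1 := by rw [map_one]; exact mul_eq_right.1 h1
  exact hg (q.inj i.1 (hi.1 (by simp)) (hi.1 (by simp)) h2)

/-- compression to a copy -/
def cp (k : Ix G) : (L2 (P2 q) →L[ℂ] L2 (P2 q)) →ₗ[ℂ] (L2 (P1 q) →L[ℂ] L2 (P1 q)) :=
  cps (ij (X := fun _ : Ix G => P1 q) k)

lemma cp_inner (k : Ix G) (x : L2 (P2 q) →L[ℂ] L2 (P2 q)) (v w : L2 (P1 q)) :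
    inner ℂ v (cp q k x w) = inner ℂ (ij (X := fun _ : Ix G => P1 q) k v)
      (x (ij (X := fun _ : Ix G => P1 q) k w)) := cps_inner _ x v w

lemma cp_norm (k : Ix G) (x : L2 (P2 q) →L[ℂ] L2 (P2 q)) : ‖cp q k x‖ ≤ ‖x‖ := by
  refine ContinuousLinearMap.opNorm_le_bound _ (norm_nonneg _) fun w => ?_
  have h1 : ‖cp q k x w‖ ^ 2 ≤ ‖cp q k x w‖ * (‖x‖ * ‖w‖) := by
    have h2 : ‖inner ℂ (cp q k x w) (cp q k x w)‖ = ‖cp q k x w‖ ^ 2 := by
      rw [inner_self_eq_norm_sq_to_K]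
      simp
    rw [← h2, cp_inner]
    refine (norm_inner_le_norm _ _).trans ?_
    rw [LinearIsometry.norm_map]
    refine mul_le_mul_of_nonneg_left ?_ (norm_nonneg _)
    refine (x.le_opNorm _).trans ?_
    rw [LinearIsometry.norm_map]
  by_cases h0 : ‖cp q k x w‖ = 0
  · rw [h0]; positivity
  · have h3 : 0 < ‖cp q k x w‖ := lt_of_le_of_ne (norm_nonneg _) (Ne.symm h0)
    rw [sq] at h1
    exact le_of_mul_le_mul_left h1 h3

/-- the state -/
def th2 : (L2 (P2 q) →L[ℂ] L2 (P2 q)) →ₗ[ℂ] ℂ where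
  toFun x := ul (UF G) (fun k => th1 q (cp q k x))
  map_add' x y := by
    simp only [map_add]
    exact ul_add _ (fun k => (th1_norm q _).trans (cp_norm q k x))
      (fun k => (th1_norm q _).trans (cp_norm q k y))
  map_smul' c x := by
    simp only [map_smul, smul_eq_mul, RingHom.id_apply]
    exact ul_smul _ (fun k => (th1_norm q _).trans (cp_norm q k x)) c

lemma th2_apply (x : L2 (P2 q) →L[ℂ] L2 (P2 q)) :
    th2 q x = ul (UF G) (fun k => th1 q (cp q k x)) := rfl

/-- the block map -/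
def bb : P2 q → Ix G × Ix G := fun p => (p.1, p.2.1)

/-- blocks -/
def e2 (k i : Ix G) : q.Q i.1 → P2 q := fun x => ⟨k, i, x⟩

lemma ta_cp (k i : Ix G) (x : L2 (P2 q) →L[ℂ] L2 (P2 q)) :
    ta (e1 q i) (cp q k x) = ta (e2 q k i) x := by
  change (Fintype.card (q.Q i.1) : ℂ)⁻¹ * ∑ y, inner ℂ (dl (e1 q i y)) (cp q k x (dl (e1 q i y))) =
    (Fintype.card (q.Q i.1) : ℂ)⁻¹ * ∑ y, inner ℂ (dl (e2 q k i y)) (x (dl (e2 q k i y)))
  congr 1
  refine Finset.sum_congr rfl fun y _ => ?_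
  rw [cp_inner, ij_dl]
  rfl

lemma e2_inj (k i : Ix G) : Function.Injective (e2 q k i) := by
  intro x y h
  have h1 := (Sigma.mk.inj_iff.1 h).2
  have h2 := (Sigma.mk.inj_iff.1 (eq_of_heq h1)).2
  exact eq_of_heq h2

lemma e2_range (k i : Ix G) (p : P2 q) : bb q p = (k, i) ↔ p ∈ Set.range (e2 q k i) := by
  obtain ⟨k', i', x⟩ := p
  constructor
  · intro h
    have h1 : k' = k := congrArg Prod.fst h
    have h2 : i' = i := congrArg Prod.snd h
    subst h1
    subst h2
    exact ⟨x, rfl⟩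
  · rintro ⟨y, hy⟩
    rw [← hy]
    rfl

lemma fin_fib (b : Ix G × Ix G) : Finite {p // bb q p = b} := by
  obtain ⟨k, i⟩ := b
  have h : Function.Surjective
      (fun y : q.Q i.1 => (⟨e2 q k i y, rfl⟩ : {p // bb q p = (k, i)})) := by
    rintro ⟨p, hp⟩
    obtain ⟨y, hy⟩ := (e2_range q k i p).1 hp
    exact ⟨y, Subtype.ext hy⟩
  exact Finite.of_surjective _ h

lemma th2_tr (hB : S_BDM) {x y : L2 (P2 q) →L[ℂ] L2 (P2 q)} (hx : x ∈ BD (bb q))
    (hy : y ∈ BD (bb q)) : th2 q (x * y) = th2 q (y * x) := by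
  rw [th2_apply, th2_apply]
  congr 1
  funext k
  rw [th1_apply, th1_apply]
  congr 1
  funext i
  rw [ta_cp, ta_cp]
  exact ta_tr (e2 q k i) hB (e2_inj q k i) (e2_range q k i) hx hy

lemma cp_conj (k : Ix G) (s t : G) (x : L2 (P2 q) →L[ℂ] L2 (P2 q)) :
    cp q k (star (prm (a2 q) t) * x * prm (a2 q) s) =
      star (prm (a1 q) t) * cp q k x * prm (a1 q) s := by
  have hij : ∀ (g : G) (v : L2 (P1 q)), prm (a2 q) g (ij (X := fun _ : Ix G => P1 q) k v) =
      ij (X := fun _ : Ix G => P1 q) k (prm (a1 q) g v) := by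
    intro g v
    have h1 : (prm (a2 q) g) ∘L (ij (X := fun _ : Ix G => P1 q) k).toContinuousLinearMap =
        (ij (X := fun _ : Ix G => P1 q) k).toContinuousLinearMap ∘L (prm (a1 q) g) := by
      have h2 : ∀ w, ContinuousLinearMap.adjoint
          ((prm (a2 q) g) ∘L (ij (X := fun _ : Ix G => P1 q) k).toContinuousLinearMap) w =
          ContinuousLinearMap.adjoint
          ((ij (X := fun _ : Ix G => P1 q) k).toContinuousLinearMap ∘L (prm (a1 q) g)) w := by
        intro w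
        refine vec_ext fun p => ?_
        rw [← inner_dl, ← inner_dl, ContinuousLinearMap.adjoint_inner_right,
          ContinuousLinearMap.adjoint_inner_right]
        congr 1
        change prm (a2 q) g (ij (X := fun _ : Ix G => P1 q) k (dl p)) =
          ij (X := fun _ : Ix G => P1 q) k (prm (a1 q) g (dl p))
        rw [ij_dl, prm_apply, prm_apply, UU_dl, UU_dl, ij_dl]
        rfl
      have h3 := ContinuousLinearMap.ext h2
      exact (ContinuousLinearMap.adjoint.injective h3)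
    exact congrArg (fun T : L2 (P1 q) →L[ℂ] L2 (P2 q) => T v) h1
  ext1 w
  refine ext_inner_left ℂ fun v => ?_
  rw [cp_inner]
  change inner ℂ (ij (X := fun _ : Ix G => P1 q) k v)
    (star (prm (a2 q) t) (x (prm (a2 q) s (ij (X := fun _ : Ix G => P1 q) k w)))) =
    inner ℂ v (star (prm (a1 q) t) (cp q k x (prm (a1 q) s w)))
  rw [star_ap, star_ap, hij, hij, cp_inner]

end

end Pool.Agent.N557.QW
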