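import Pool.Agent.N557.QW.RFD2

/-!
# The data for a residually finite group, II
-/

set_option autoImplicit false
set_option linter.unusedSectionVars false

namespace Pool.Agent.N557.QW

open Pool.Agent.H494R3.GT
open Filter Topology
open scoped ComplexOrder

noncomputable section

/-- continuous linear maps on `ℓ²` which agree on the basis are equal -/
lemma clm_ext {P K : Type} [NormedAddCommGroup K] [InnerProductSpace ℂ K] [CompleteSpace K]
    {A B : L2 P →L[ℂ] K} (h : ∀ p, A (dl p) = B (dl p)) : A = B := by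
  apply ContinuousLinearMap.adjoint.injective
  ext1 w
  refine vec_ext fun p => ?_
  rw [← inner_dl, ← inner_dl, ContinuousLinearMap.adjoint_inner_right,
    ContinuousLinearMap.adjoint_inner_right, h]

section int

variable {G : Type} [Group G] {P : Type} {θ : (L2 P →L[ℂ] L2 P) →ₗ[ℂ] ℂ}
  {u : G →* (L2 P →L[ℂ] L2 P)}
  {K : Type} [NormedAddCommGroup K] [InnerProductSpace ℂ K] [CompleteSpace K] (d : GD θ u K)

/-- `T` and `T'` are intertwined by `W` -/
def Itw (T : L2 P →L[ℂ] L2 P) (T' : L2 G →L[ℂ] L2 G) : Prop :=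
  ∀ v, d.π T (d.W v) = d.W (T' v)

variable {d}

lemma Itw.mul {S T : L2 P →L[ℂ] L2 P} {S' T' : L2 G →L[ℂ] L2 G} (h1 : Itw d S S')
    (h2 : Itw d T T') : Itw d (S * T) (S' * T') := by
  intro v
  rw [map_mul]
  change d.π S (d.π T (d.W v)) = d.W (S' (T' v))
  rw [h2, h1]

lemma Itw.add {S T : L2 P →L[ℂ] L2 P} {S' T' : L2 G →L[ℂ] L2 G} (h1 : Itw d S S')
    (h2 : Itw d T T') : Itw d (S + T) (S' + T') := by
  intro v
  rw [map_add, add_apply, add_apply, map_add, h1, h2]

lemma Itw.smul {T : L2 P →L[ℂ] L2 P} {T' : L2 G →L[ℂ] L2 G} (c : ℂ)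
    (h2 : Itw d T T') : Itw d (c • T) (c • T') := by
  intro v
  rw [map_smul, smul_apply, smul_apply, map_smul, h2]

lemma Itw.one : Itw d 1 1 := by
  intro v
  rw [map_one]
  rfl

lemma Itw.zero : Itw d 0 0 := by
  intro v
  rw [map_zero]
  change (0 : K) = d.W 0
  rw [map_zero]

lemma Itw.inv {T : L2 P →L[ℂ] L2 P} {T' : L2 G →L[ℂ] L2 G} (h : Itw d T T') (h1 : IsUnit T)
    (h2 : IsUnit T') : Itw d (Ring.inverse T) (Ring.inverse T') := by
  intro v
  have e1 : v = T' (Ring.inverse T' v) := by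
    have := congrArg (fun S : L2 G →L[ℂ] L2 G => S v) (Ring.mul_inverse_cancel T' h2)
    exact this.symm
  nth_rewrite 1 [e1]
  rw [← h]
  change (d.π (Ring.inverse T) * d.π T) (d.W (Ring.inverse T' v)) = _
  rw [← map_mul, Ring.inverse_mul_cancel T h1, map_one]
  rfl

lemma Itw.rep (g : G) : Itw d (u g) (lam g) := by
  have h : (d.π (u g)) ∘L d.W.toContinuousLinearMap =
      d.W.toContinuousLinearMap ∘L (lam g) := by
    apply clm_ext
    intro s
    change d.π (u g) (d.W (dl s)) = d.W (lam g (dl s))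
    rw [lam_dl, d.hW, d.hW, map_mul u, map_mul d.π]
    rfl
  intro v
  exact congrArg (fun T : L2 G →L[ℂ] K => T v) h

lemma Itw.opr (a : G →₀ ℂ) : Itw d (opr u a) (opr (lamH G) a) := by
  classical
  unfold QW.opr Finsupp.sum
  induction a.support using Finset.induction_on with
  | empty => simpa using Itw.zero
  | insert g s hg ih =>
    rw [Finset.sum_insert hg, Finset.sum_insert hg]
    exact (Itw.smul _ (Itw.rep g)).add ih

lemma Itw.fa {T : L2 P →L[ℂ] L2 P} {T' : L2 G →L[ℂ] L2 G} (h : Itw d T T')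
    (h1 : IsUnit (1 + T * T)) (h2 : IsUnit (1 + T' * T')) : Itw d (fa T) (fa T') :=
  ((h.mul ((Itw.one.add (h.mul h)).inv h1 h2)).smul 2)

lemma Itw.state {T : L2 P →L[ℂ] L2 P} {T' : L2 G →L[ℂ] L2 G} (h : Itw d T T') (s t : G) :
    θ (star (u t) * T * u s) = inner ℂ (dl t) (T' (dl s)) := by
  have h1 := LinearIsometry.inner_map_map d.W (dl t) (T' (dl s))
  rw [← h, d.hW, d.hW] at h1
  rw [← h1, ← d.hθ, map_mul, map_mul, map_star]
  change inner ℂ d.ξ (star (d.π (u t)) (d.π T (d.π (u s) d.ξ))) = _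
  rw [star_ap]

end int

lemma star_opr {G : Type} [Group G] {H : Type} [NormedAddCommGroup H] [InnerProductSpace ℂ H]
    [CompleteSpace H] {u : G →* (H →L[ℂ] H)} (hu : ∀ g, star (u g) = u g⁻¹) (a : G →₀ ℂ)
    (ha : ∀ g, a g⁻¹ = (starRingEnd ℂ) (a g)) : star (opr u a) = opr u a := by
  unfold opr Finsupp.sum
  rw [star_sum]
  refine Finset.sum_nbij' (fun g => g⁻¹) (fun g => g⁻¹) ?_ ?_ ?_ ?_ ?_
  · intro g hg
    rw [Finsupp.mem_support_iff] at hg ⊢
    rw [ha]
    simpa using hg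
  · intro g hg
    rw [Finsupp.mem_support_iff] at hg ⊢
    rw [ha]
    simpa using hg
  · intro g _; exact inv_inv g
  · intro g _; exact inv_inv g
  · intro g _
    rw [star_smul, hu, ha]
    rfl

section bd

variable {P ι : Type} {β : P → ι}

lemma inv_mem_BD {A : L2 P →L[ℂ] L2 P} (h : A ∈ BD β) (hu : IsUnit A) :
    Ring.inverse A ∈ BD β := by
  unfold BD at h ⊢
  rw [StarSubalgebra.mem_centralizer_iff] at h ⊢
  have key : ∀ T : L2 P →L[ℂ] L2 P, T * A = A * T → T * Ring.inverse A = Ring.inverse A * T := by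
    intro T hT
    have h1 := Ring.inverse_mul_cancel A hu
    have h2 := Ring.mul_inverse_cancel A hu
    calc T * Ring.inverse A = (Ring.inverse A * A) * T * Ring.inverse A := by rw [h1, one_mul]
      _ = Ring.inverse A * (T * A) * Ring.inverse A := by rw [hT]; simp only [mul_assoc]
      _ = Ring.inverse A * T * (A * Ring.inverse A) := by simp only [mul_assoc]
      _ = _ := by rw [h2, mul_one]
  intro g hg
  exact ⟨key _ (h g hg).1, key _ (h g hg).2⟩

lemma fa_mem_BD {A : L2 P →L[ℂ] L2 P} (h : A ∈ BD β) (hu : IsUnit (1 + A * A)) :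
    fa A ∈ BD β :=
  (BD β).smul_mem (mul_mem h (inv_mem_BD (add_mem (one_mem _) (mul_mem h h)) hu)) _

lemma opr_mem_BD {G : Type} [Group G] {u : G →* (L2 P →L[ℂ] L2 P)} (h : ∀ g, u g ∈ BD β)
    (a : G →₀ ℂ) : opr u a ∈ BD β :=
  sum_mem fun g _ => (BD β).smul_mem (h g) _

lemma prm_mem_BD (hB : S_BDM) {G : Type} [Group G] (a : G →* Equiv.Perm P)
    (h : ∀ g p, β (a g p) = β p) (g : G) : prm a g ∈ BD β := by
  classical
  rw [(hB P ι β).1]
  intro p q hpq
  rw [prm_apply, UU_dl, dl_inner, if_neg]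
  intro h1
  apply hpq
  rw [h1, h]

end bd

section dsum

variable {ι : Type} {X : ι → Type} (T S : ∀ b, L2 (X b) →L[ℂ] L2 (X b)) (M N : ℝ)
  (hM : ∀ b, ‖T b‖ ≤ M) (h0 : 0 ≤ M) (hN : ∀ b, ‖S b‖ ≤ N) (h0' : 0 ≤ N)

lemma dsum_inner (b : ι) (p : X b) (v : L2 (Σ b, X b)) :
    inner ℂ (dl ⟨b, p⟩) (dsum T M hM h0 v) = inner ℂ (dl p) (T b (rs b v)) := by
  rw [inner_dl, inner_dl, dsum_apply]

lemma dsum_star (hs : ∀ b, star (T b) = T b) : star (dsum T M hM h0) = dsum T M hM h0 := by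
  classical
  apply op_ext_inner
  rintro ⟨b, p⟩ ⟨b', p'⟩
  rw [star_ap, dsum_inner, ← inner_conj_symm, dsum_inner]
  by_cases h : b = b'
  · subst h
    rw [rs_dl_self, rs_dl_self, inner_conj_symm]
    nth_rewrite 1 [← hs b]
    rw [star_ap']
  · rw [rs_dl_ne h, rs_dl_ne (Ne.symm h), map_zero, map_zero, inner_zero_right,
      inner_zero_right, map_zero]

lemma dsum_mul_self (h1 : ∀ b, ‖T b * T b‖ ≤ M) :
    dsum T M hM h0 * dsum T M hM h0 = dsum (fun b => T b * T b) M h1 h0 := by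
  ext1 v
  apply rs_ext
  intro b
  rw [mul_ap, rs_dsum, rs_dsum, rs_dsum]
  rfl

lemma dsum_ij (b : ι) (w : L2 (X b)) : dsum T M hM h0 (ij b w) = ij b (T b w) := by
  apply rs_ext
  intro b'
  rw [rs_dsum]
  by_cases h : b' = b
  · subst h
    rw [rs_ij, rs_ij]
  · rw [rs_ij_ne h, map_zero, rs_ij_ne h]

end dsum

variable {G : Type} [Group G] (q : FQ G)

lemma approx (hSOT : S_SOT) {z : L2 G →L[ℂ] L2 G} (hz : z ∈ LG G) (hs : star z = z)
    (w w' : G → L2 G) (k : Ix G) :
    ∃ a : G →₀ ℂ, (∀ g, a g⁻¹ = (starRingEnd ℂ) (a g)) ∧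
      ∀ s ∈ k.1, ‖(opr (lamH G) a - z) (w s)‖ < 1 / ((k.2 : ℝ) + 1) ∧
        ‖(opr (lamH G) a - z) (w' s)‖ < 1 / ((k.2 : ℝ) + 1) := by
  classical
  set e := Fintype.equivFin (k.1 × Bool) with he
  obtain ⟨a, ha, h⟩ := hSOT G z hz hs (Fintype.card (k.1 × Bool))
    (fun j => if (e.symm j).2 then w (e.symm j).1 else w' (e.symm j).1) (1 / ((k.2 : ℝ) + 1))
    (by positivity)
  refine ⟨a, ha, fun s hs' => ⟨?_, ?_⟩⟩
  · have := h (e (⟨s, hs'⟩, true))
    simpa using this
  · have := h (e (⟨s, hs'⟩, false))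
    simpa using this

lemma ev_ne (k0 : Ix G) : ∀ᶠ k in (UF G : Filter (Ix G)), k ≠ k0 := by
  refine (ev_mem ∅ (k0.2 + 1)).mono fun k hk h => ?_
  rw [h] at hk
  omega

lemma th2_data (hB : S_BDM) (hG : S_GNS) (hCA : S_CA) (hCB : S_CB) (hSOT : S_SOT) :
    TrData G (bb q) (th2 q) (prm (a2 q)) := by
  classical
  have hcp1 : ∀ k, cp q k 1 = 1 := fun k => (cps_ucp _).one
  have hstar1 : ∀ g, star (prm (a1 q) g) = prm (a1 q) g⁻¹ := star_u' (prm_un (a1 q))
  have hcpu : ∀ k g, cp q k (prm (a2 q) g) = prm (a1 q) g := by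
    intro k g
    have := cp_conj q k g 1 1
    rw [map_one, map_one, star_one, star_one, one_mul, one_mul, one_mul, hcp1, one_mul] at this
    exact this
  have hu1 : ∀ g, prm (a1 q) g ∈ BD (Sigma.fst : P1 q → Ix G) :=
    prm_mem_BD hB (a1 q) fun g p => rfl
  refine ⟨?_, ?_, ?_, ?_, ?_, ?_, ?_, ?_, ?_⟩
  · rw [th2_apply]
    simp only [hcp1, th1_one]
    exact ul_const _ _
  · intro x
    rw [th2_apply]
    refine ul_nonneg _ (fun k => (th1_norm q _).trans (cp_norm q k _)) fun k => ?_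
    rw [th1_apply]
    refine ul_nonneg _ (fun i => ta_norm (e1 q i) _) fun i => ?_
    rw [ta_cp]
    exact ta_pos _ _
  · intro x hx y hy
    exact th2_tr q hB hx hy
  · intro g x
    rw [th2_apply, th2_apply]
    congr 1
    funext k
    rw [cp_conj, th1_inv]
  · intro p r hpr
    rw [th2_apply]
    apply ul_congr_ev
    refine (ev_ne r.1).mono fun k hk => ?_
    have h1 : cp q k (star (eu p r) * eu p r) = 0 := by
      ext1 w
      refine ext_inner_left ℂ fun v => ?_
      rw [cp_inner]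
      have h2 : eu p r (ij (X := fun _ : Ix G => P1 q) k w) = 0 := by
        change (inner ℂ (dl r) (ij (X := fun _ : Ix G => P1 q) k w)) • (dl p : L2 (P2 q)) = 0
        have h3 : inner ℂ (ij (X := fun _ : Ix G => P1 q) k w) (dl r) = 0 := by
          obtain ⟨r1, r2⟩ := r
          rw [inner_ij, rs_dl_ne hk, inner_zero_right]
        rw [← inner_conj_symm, h3, map_zero, zero_smul]
      change inner ℂ _ (star (eu p r) (eu p r (ij (X := fun _ : Ix G => P1 q) k w))) =
        inner ℂ v (0 : L2 (P1 q))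
      rw [h2, map_zero, inner_zero_right, inner_zero_right]
    rw [h1, map_zero]
  · exact prm_mem_BD hB (a2 q) fun g p => rfl
  · exact prm_un (a2 q)
  · intro g hg
    rw [th2_apply]
    simp only [hcpu, th1_tr q g hg]
    exact ul_const _ _
  · intro y hy hys hy1
    obtain ⟨z, hzs, hzy, hzc⟩ := (hCA (L2 G)).2 y hys hy1
    have hz : z ∈ LG G := mem_LG.2 fun g => hzc _ (mem_LG.1 hy g)
    choose a ha hap using approx hSOT hz hzs (fun s => Ring.inverse (1 + z * z) (dl s))
      (fun s => fa z (dl s))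
    obtain ⟨K, _, _, _, ⟨d⟩⟩ := exists_GD' (u := prm (a1 q)) hG (th1_one q) (th1_pos q)
      (prm_un (a1 q)) (th1_tr q)
    have hAs : ∀ k, star (opr (prm (a1 q)) (a k)) = opr (prm (a1 q)) (a k) :=
      fun k => star_opr (u := prm (a1 q)) hstar1 (a k) (ha k)
    have hGs : ∀ k, star (opr (lamH G) (a k)) = opr (lamH G) (a k) :=
      fun k => star_opr (u := lamH G) (fun g => star_lam g) (a k) (ha k)
    have hF := fun k => (hCA (L2 (P1 q))).1 _ (hAs k)
    have hFG := fun k => (hCA (L2 G)).1 _ (hGs k)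
    let T : Ix G → (L2 (P1 q) →L[ℂ] L2 (P1 q)) := fun k => fa (opr (prm (a1 q)) (a k))
    have hT : ∀ k, ‖T k‖ ≤ 1 := fun k => (hF k).2.2.2
    have hT2 : ∀ k, ‖T k * T k‖ ≤ 1 := fun k =>
      (norm_mul_le _ _).trans (mul_le_one₀ (hT k) (norm_nonneg _) (hT k))
    have hTs : ∀ k, star (T k) = T k := fun k => (hF k).2.2.1
    have hI : ∀ k, Itw d (T k) (fa (opr (lamH G) (a k))) := fun k =>
      Itw.fa (Itw.opr (a k)) (hF k).1 (hFG k).1
    -- strong convergence
    have hconv : ∀ s, Tendsto (fun k => fa (opr (lamH G) (a k)) (dl s)) (UF G)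
        (𝓝 (y (dl s))) := by
      intro s
      rw [Metric.tendsto_nhds]
      intro ε hε
      obtain ⟨n, hn⟩ := exists_nat_gt (3 / ε)
      refine (ev_mem {s} n).mono fun k hk => ?_
      have hs1 : s ∈ k.1 := hk.1 (by simp)
      have h1 := hap k s hs1
      have h2 := hCB (L2 G) (opr (lamH G) (a k)) z (dl s) (hGs k) hzs
      rw [dist_eq_norm, ← hzy]
      have h3 : (n : ℝ) ≤ k.2 := by exact_mod_cast hk.2
      have h4 : 3 * (1 / ((k.2 : ℝ) + 1)) < ε := by
        rw [mul_one_div, div_lt_iff₀ (by positivity)]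
        rw [div_lt_iff₀ hε] at hn
        nlinarith
      change ‖(fa (opr (lamH G) (a k)) - fa z) (dl s)‖ < ε
      linarith [h1.1, h1.2]
    refine ⟨dsum (X := fun _ : Ix G => P1 q) T 1 hT zero_le_one, ?_, dsum_star _ _ _ _ hTs,
      ?_, ?_⟩
    · rw [(hB (P2 q) (Ix G × Ix G) (bb q)).1]
      rintro ⟨k, p⟩ ⟨k', p'⟩ hne
      rw [dsum_inner]
      by_cases hk : k = k'
      · subst hk
        rw [rs_dl_self]
        refine ((hB (P1 q) (Ix G) Sigma.fst).1 (T k)).1
          (fa_mem_BD (opr_mem_BD hu1 _) (hF k).1) p p' ?_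
        intro h
        apply hne
        change (k, p.1) = (k, p'.1)
        rw [h]
      · rw [rs_dl_ne hk, map_zero, inner_zero_right]
    · intro s t
      rw [th2_apply]
      have h1 : ∀ k, cp q k (dsum (X := fun _ : Ix G => P1 q) T 1 hT zero_le_one) = T k := by
        intro k
        ext1 w
        refine ext_inner_left ℂ fun v => ?_
        rw [cp_inner, dsum_ij, LinearIsometry.inner_map_map]
      simp only [cp_conj, h1, (hI _).state]
      apply ul_eq
      exact (tendsto_const_nhds).inner (hconv s)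
    · intro s t
      rw [th2_apply, dsum_mul_self _ _ _ _ hT2]
      have h1 : ∀ k, cp q k (dsum (X := fun _ : Ix G => P1 q) (fun k => T k * T k) 1 hT2
          zero_le_one) = T k * T k := by
        intro k
        ext1 w
        refine ext_inner_left ℂ fun v => ?_
        rw [cp_inner, dsum_ij, LinearIsometry.inner_map_map]
      simp only [cp_conj, h1, ((hI _).mul (hI _)).state]
      apply ul_eq
      have h2 : ∀ k, inner ℂ (dl t) ((fa (opr (lamH G) (a k)) * fa (opr (lamH G) (a k))) (dl s)) =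
          inner ℂ (fa (opr (lamH G) (a k)) (dl t)) (fa (opr (lamH G) (a k)) (dl s)) := by
        intro k
        rw [mul_ap]
        nth_rewrite 1 [← (hFG k).2.2.1]
        rw [star_ap]
      have h3 : inner ℂ (dl t) ((y * y) (dl s)) = inner ℂ (y (dl t)) (y (dl s)) := by
        rw [mul_ap]
        nth_rewrite 1 [← hys]
        rw [star_ap]
      simp only [h2, h3]
      exact (hconv t).inner (hconv s)

theorem t_rfd (hB : S_BDM) (hG : S_GNS) (hCA : S_CA) (hCB : S_CB) (hSOT : S_SOT) : S_RFD := by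
  intro G _ hRF
  obtain ⟨q⟩ := hRF.exists_FQ
  exact ⟨P2 q, Ix G × Ix G, bb q, th2 q, prm (a2 q), fin_fib q,
    th2_data q hB hG hCA hCB hSOT⟩

end

end Pool.Agent.N557.QW
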