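import Pool.Agent.N557.QW.DS
import Pool.Agent.N859.QW.Defs

/-!
# Statements of the steps (QWEP of group von Neumann algebras of residually finite groups,
amalgamated free products)
-/

set_option autoImplicit false

namespace Pool.Agent.N557.QW

open Pool.Agent.H494R3.GT
open scoped ComplexOrder CStarAlgebra

noncomputable section

/-- Unital completely positive maps `B(H) → B(K)`. -/
structure UCP {H K : Type} [NormedAddCommGroup H] [InnerProductSpace ℂ H] [CompleteSpace H]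
    [NormedAddCommGroup K] [InnerProductSpace ℂ K] (Φ : (H →L[ℂ] H) →ₗ[ℂ] (K →L[ℂ] K)) : Prop where
  one : Φ 1 = 1
  cp : ∀ (n : ℕ) (x : Fin n → H →L[ℂ] H) (v : Fin n → K),
    0 ≤ ∑ i, ∑ j, inner ℂ (v i) (Φ (star (x i) * x j) (v j))

/-- Matrix units on `ℓ²(P)`: `dl q ↦ dl p`. -/
def eu {P : Type} (p q : P) : L2 P →L[ℂ] L2 P := (innerSL ℂ (dl q)).smulRight (dl p)

/-- Block diagonal operators, for the partition of `P` into the fibres of `β`. -/
def BD {P ι : Type} (β : P → ι) : StarSubalgebra ℂ (L2 P →L[ℂ] L2 P) :=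
  StarSubalgebra.centralizer ℂ (Set.range fun b : ι => MM {p | β p = b})

/-- BDM: membership in the algebra of block diagonal operators, matrix units. -/
def S_BDM : Prop :=
  ∀ (P ι : Type) (β : P → ι),
    (∀ x : L2 P →L[ℂ] L2 P, x ∈ BD β ↔ ∀ p q, β p ≠ β q → inner ℂ (dl p) (x (dl q)) = 0) ∧
    IsClosed (BD β : Set (L2 P →L[ℂ] L2 P)) ∧
    (∀ p q, β p = β q → eu p q ∈ BD β) ∧
    (∀ p q : P, star (eu p q) = eu q p) ∧
    (∀ (p q : P) (x : L2 P →L[ℂ] L2 P), x * eu p q = (innerSL ℂ (dl q)).smulRight (x (dl p)))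

/-- DB: the conditional expectation onto the block diagonal operators. -/
def S_DB : Prop :=
  ∀ (P ι : Type) (β : P → ι), ∃ D : (L2 P →L[ℂ] L2 P) →ₗ[ℂ] (L2 P →L[ℂ] L2 P), UCP D ∧
    (∀ x p q, β p = β q → inner ℂ (dl p) (D x (dl q)) = inner ℂ (dl p) (x (dl q))) ∧
    (∀ x p q, β p ≠ β q → inner ℂ (dl p) (D x (dl q)) = 0)

/-- ISO: a faithful representation of an algebra of block diagonal operators with finite blocks
which contains the matrix units contains the identical representation. -/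
def S_ISO : Prop :=
  ∀ (P ι : Type) (β : P → ι) (H : Type) [NormedAddCommGroup H] [InnerProductSpace ℂ H]
    [CompleteSpace H] (C : StarSubalgebra ℂ (L2 P →L[ℂ] L2 P)) (ρ : C →⋆ₐ[ℂ] (H →L[ℂ] H)),
    (∀ b, Finite {p // β p = b}) → C ≤ BD β → (∀ p q, β p = β q → eu p q ∈ C) →
    Function.Injective ρ →
    ∃ V : L2 P →ₗᵢ[ℂ] H, ∀ (c : C) (v : L2 P), ρ c (V v) = V (c.1 v)

/-- GNS: the GNS representation of a state of `B(H)`. -/
def S_GNS : Prop :=
  ∀ (H : Type) [NormedAddCommGroup H] [InnerProductSpace ℂ H] [CompleteSpace H]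
    (θ : (H →L[ℂ] H) →ₗ[ℂ] ℂ), θ 1 = 1 → (∀ x, 0 ≤ θ (star x * x)) →
    ∃ (K : Type) (_ : NormedAddCommGroup K) (_ : InnerProductSpace ℂ K) (_ : CompleteSpace K)
      (π : (H →L[ℂ] H) →⋆ₐ[ℂ] (K →L[ℂ] K)) (ξ : K), ∀ x, inner ℂ ξ (π x ξ) = θ x

/-- EXT: extension of a representation from an ideal. -/
def S_EXT : Prop :=
  ∀ (H₀ H : Type) [NormedAddCommGroup H₀] [InnerProductSpace ℂ H₀] [CompleteSpace H₀]
    [NormedAddCommGroup H] [InnerProductSpace ℂ H] [CompleteSpace H]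
    (C C₁ : StarSubalgebra ℂ (H₀ →L[ℂ] H₀)) (J : Submodule ℂ (H₀ →L[ℂ] H₀))
    (ρ : C₁ →⋆ₐ[ℂ] (H →L[ℂ] H)) (hle : C₁ ≤ C) (hJ : ∀ j ∈ J, j ∈ C₁),
    IsClosed (C : Set (H₀ →L[ℂ] H₀)) → (∀ x ∈ C, ∀ j ∈ J, x * j ∈ J) →
    (∀ j ∈ J, star j ∈ J) →
    ∃ (z : H →L[ℂ] H) (Ψ : C →ₗ[ℂ] (H →L[ℂ] H)),
      star z = z ∧ z * z = z ∧ (∀ (j : H₀ →L[ℂ] H₀) (hj : j ∈ J), z * ρ ⟨j, hJ j hj⟩ = ρ ⟨j, hJ j hj⟩) ∧
      (∀ c, z * ρ c = ρ c * z) ∧ z ∈ Set.centralizer (Set.centralizer (Set.range ρ)) ∧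
      (∀ x, Ψ x ∈ Set.centralizer (Set.centralizer (Set.range ρ))) ∧
      (∀ (c : H₀ →L[ℂ] H₀) (hc : c ∈ C₁), Ψ ⟨c, hle hc⟩ = ρ ⟨c, hc⟩ * z) ∧
      (∀ x y, Ψ (x * y) = Ψ x * Ψ y) ∧ (∀ x, Ψ (star x) = star (Ψ x))

/-- POS: positive matrices over a C*-algebra are of the form `R* R`. -/
def S_POS : Prop :=
  ∀ (K : Type) [NormedAddCommGroup K] [InnerProductSpace ℂ K] [CompleteSpace K]
    (L : StarSubalgebra ℂ (K →L[ℂ] K)), IsClosed (L : Set (K →L[ℂ] K)) →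
    ∀ (n : ℕ) (b : Fin n → Fin n → K →L[ℂ] K), (∀ i j, b i j ∈ L) →
      (∀ i j, star (b i j) = b j i) →
      (∀ w : Fin n → K, 0 ≤ (∑ i, ∑ j, inner ℂ (w i) (b i j (w j))).re) →
      ∃ R : Fin n → Fin n → K →L[ℂ] K, (∀ i j, R i j ∈ L) ∧
        ∀ i j, b i j = ∑ l, star (R l i) * R l j

/-- A state of `B(ℓ²(P))`, tracial on the block diagonal operators, with a representation of `G`,
such that the associated completely positive map to `L(G)` is onto already on elements of its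
multiplicative domain. -/
structure TrData (G : Type) [Group G] {P ι : Type} (β : P → ι)
    (θ : (L2 P →L[ℂ] L2 P) →ₗ[ℂ] ℂ) (u : G →* (L2 P →L[ℂ] L2 P)) : Prop where
  one : θ 1 = 1
  pos : ∀ x, 0 ≤ θ (star x * x)
  tr : ∀ x ∈ BD β, ∀ y ∈ BD β, θ (x * y) = θ (y * x)
  inv : ∀ g x, θ (star (u g) * x * u g) = θ x
  mu : ∀ p q, β p = β q → θ (star (eu p q) * eu p q) = 0
  uBD : ∀ g, u g ∈ BD β
  uun : ∀ g, star (u g) * u g = 1
  utr : ∀ g, g ≠ 1 → θ (u g) = 0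
  sat : ∀ y ∈ LG G, star y = y → ‖y‖ ≤ 1 → ∃ x ∈ BD β, star x = x ∧
    (∀ s t, θ (star (u t) * x * u s) = inner ℂ (dl t) (y (dl s))) ∧
    (∀ s t, θ (star (u t) * (x * x) * u s) = inner ℂ (dl t) ((y * y) (dl s)))

/-- Residual finiteness: finite sets are embedded by homomorphisms to finite groups. -/
def RF (G : Type) [Group G] : Prop :=
  ∀ F : Finset G, ∃ (Q : Type) (_ : Group Q) (_ : Finite Q) (f : G →* Q), Set.InjOn f F

/-- RFD: residually finite groups have such data. -/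
def S_RFD : Prop :=
  ∀ (G : Type) [Group G], RF G → ∃ (P ι : Type) (β : P → ι)
    (θ : (L2 P →L[ℂ] L2 P) →ₗ[ℂ] ℂ) (u : G →* (L2 P →L[ℂ] L2 P)),
    (∀ b, Finite {p // β p = b}) ∧ TrData G β θ u

/-- The function `a ↦ 2 a (1 + a²)⁻¹`. -/
def fa {H : Type} [NormedAddCommGroup H] [InnerProductSpace ℂ H] (a : H →L[ℂ] H) : H →L[ℂ] H :=
  (2 : ℂ) • (a * Ring.inverse (1 + a * a))

/-- CA: the function `fa` for self-adjoint operators. -/
def S_CA : Prop :=
  ∀ (H : Type) [NormedAddCommGroup H] [InnerProductSpace ℂ H] [CompleteSpace H],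
    (∀ a : H →L[ℂ] H, star a = a → IsUnit (1 + a * a) ∧ ‖Ring.inverse (1 + a * a)‖ ≤ 1 ∧
      star (fa a) = fa a ∧ ‖fa a‖ ≤ 1) ∧
    (∀ y : H →L[ℂ] H, star y = y → ‖y‖ ≤ 1 → ∃ z : H →L[ℂ] H, star z = z ∧ fa z = y ∧
      ∀ t, t * y = y * t → t * z = z * t)

/-- CB: strong continuity of `fa`. -/
def S_CB : Prop :=
  ∀ (H : Type) [NormedAddCommGroup H] [InnerProductSpace ℂ H] [CompleteSpace H]
    (a z : H →L[ℂ] H) (v : H), star a = a → star z = z →
      ‖(fa a - fa z) v‖ ≤ 2 * ‖(a - z) (Ring.inverse (1 + z * z) v)‖ + ‖(a - z) (fa z v)‖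

/-- The operator of an element of the group ring in a representation. -/
def opr {G : Type} [Group G] {H : Type} [NormedAddCommGroup H] [InnerProductSpace ℂ H]
    (u : G →* (H →L[ℂ] H)) (a : G →₀ ℂ) : H →L[ℂ] H := a.sum fun g c => c • u g

/-- The left regular representation as a homomorphism. -/
def lamH (G : Type) [Group G] : G →* (L2 G →L[ℂ] L2 G) where
  toFun := lam
  map_one' := lam_one
  map_mul' := lam_mul

/-- SOT: self-adjoint elements of `L(G)` are strong limits of self-adjoint elements of the group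
ring. -/
def S_SOT : Prop :=
  ∀ (G : Type) [Group G] (z : L2 G →L[ℂ] L2 G), z ∈ LG G → star z = z →
    ∀ (n : ℕ) (v : Fin n → L2 G) (ε : ℝ), 0 < ε →
      ∃ a : G →₀ ℂ, (∀ g, a g⁻¹ = (starRingEnd ℂ) (a g)) ∧
        ∀ j, ‖(opr (lamH G) a - z) (v j)‖ < ε

/-- CPC: unital completely positive maps are completely positive in the sense of Mathlib. -/
def S_CPC : Prop :=
  ∀ (H K : Type) [NormedAddCommGroup H] [InnerProductSpace ℂ H] [CompleteSpace H]
    [NormedAddCommGroup K] [InnerProductSpace ℂ K] [CompleteSpace K]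
    (Φ : (H →L[ℂ] H) →ₗ[ℂ] (K →L[ℂ] K)), UCP Φ →
    ∃ Φ' : (H →L[ℂ] H) →CP (K →L[ℂ] K), ∀ x, Φ' x = Φ x

section tracial

variable {H K : Type} [NormedAddCommGroup H] [InnerProductSpace ℂ H] [CompleteSpace H]
  [NormedAddCommGroup K] [InnerProductSpace ℂ K] [CompleteSpace K]

/-- The vector state `x ↦ ⟨ξ, x ξ⟩` is a faithful tracial state of the von Neumann algebra `M`
(it is normal). -/
structure IsTracial (M : VonNeumannAlgebra H) (ξ : H) : Prop where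
  unit : ‖ξ‖ = 1
  tracial : ∀ x ∈ M, ∀ y ∈ M, inner ℂ ξ (x (y ξ)) = inner ℂ ξ (y (x ξ))
  faithful : ∀ x ∈ M, x ξ = 0 → x = 0

/-- `M` with the trace given by `η` and the two embeddings `π 0`, `π 1` of `A` is the von Neumann
algebra amalgamated free product of two copies of `A` (with the trace given by `ξ`) over `B`. -/
structure IsAmalgFreeProd (A B : VonNeumannAlgebra H) (ξ : H) (M : VonNeumannAlgebra K) (η : K)
    (π : Fin 2 → A.toStarSubalgebra →⋆ₐ[ℂ] (K →L[ℂ] K)) : Prop where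
  mem : ∀ i a, π i a ∈ M
  trace : ∀ i a, inner ℂ η (π i a η) = inner ℂ ξ (a.1 ξ)
  agree : ∀ b : A.toStarSubalgebra, b.1 ∈ B → π 0 b = π 1 b
  generates : Set.centralizer (Set.centralizer (⋃ i, Set.range (π i))) = (M : Set (K →L[ℂ] K))
  free : ∀ (n : ℕ) (i : Fin (n + 1) → Fin 2) (a : Fin (n + 1) → A.toStarSubalgebra),
    (∀ j : Fin n, i j.castSucc ≠ i j.succ) →
    (∀ j, ∀ b ∈ B, inner ℂ ξ (b ((a j).1 ξ)) = 0) →
    inner ℂ η ((List.ofFn fun j => π (i j) (a j)).prod η) = 0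

end tracial

/-- RT: right multiplication by a unitary of a tracial von Neumann algebra. -/
def S_RT : Prop :=
  ∀ (H : Type) [NormedAddCommGroup H] [InnerProductSpace ℂ H] [CompleteSpace H]
    (M : VonNeumannAlgebra H) (ξ : H), IsTracial M ξ →
    ∀ w ∈ M, star w * w = 1 → w * star w = 1 →
      ∃ r : H →L[ℂ] H, (∀ x ∈ M, x * r = r * x) ∧ r ξ = w ξ ∧ (star r) ξ = (star w) ξ

/-- COM: the commutation theorem and the trace of `L(G)`. -/
def S_COM : Prop :=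
  ∀ (G : Type) [Group G],
    Set.centralizer (Set.centralizer (Set.range (lam : G → L2 G →L[ℂ] L2 G))) =
      (LG G : Set (L2 G →L[ℂ] L2 G)) ∧ IsTracial (LG G) (dl (1 : G))

/-- AMP: an injective homomorphism `G → Γ` induces `L(G) → L(Γ)`. -/
def S_AMP : Prop :=
  ∀ (G Γ : Type) [Group G] [Group Γ] (f : G →* Γ), Function.Injective f →
    ∃ α : (LG G).toStarSubalgebra →⋆ₐ[ℂ] (L2 Γ →L[ℂ] L2 Γ), (∀ x, α x ∈ LG Γ) ∧
      (∀ x g, cf (α x) (f g) = cf x.1 g) ∧ (∀ x, ∀ γ ∉ Set.range f, cf (α x) γ = 0)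

/-- LKM: the von Neumann algebra of a subgroup. -/
def S_LKM : Prop :=
  ∀ (G : Type) [Group G] (K : Subgroup G),
    (∀ x : L2 G →L[ℂ] L2 G, x ∈ LK K ↔ x ∈ LG G ∧ ∀ g ∉ K, cf x g = 0) ∧
    ∀ x ∈ LK K, ∃ y ∈ LG K, ∀ k : K, cf y k = cf x k

/-- RDC: reduced words in the double of `G` over `K`. -/
def S_RDC : Prop :=
  ∀ (G : Type) [Group G] (K : Subgroup G),
    (∀ (n : ℕ) (i : Fin (n + 1) → Fin 2) (g : Fin (n + 1) → G),
      (∀ j : Fin n, i j.castSucc ≠ i j.succ) → (∀ j, g j ∉ K) →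
      (List.ofFn fun j => Monoid.PushoutI.of (φ := fun _ : Fin 2 => K.subtype) (i j) (g j)).prod
        ≠ 1) ∧
    ∀ γ : Monoid.PushoutI (fun _ : Fin 2 => K.subtype),
      (∃ k : K, γ = Monoid.PushoutI.base (fun _ : Fin 2 => K.subtype) k) ∨
      ∃ (n : ℕ) (i : Fin (n + 1) → Fin 2) (g : Fin (n + 1) → G),
        (∀ j : Fin n, i j.castSucc ≠ i j.succ) ∧ (∀ j, g j ∉ K) ∧
        γ = (List.ofFn fun j =>
          Monoid.PushoutI.of (φ := fun _ : Fin 2 => K.subtype) (i j) (g j)).prod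

/-- FRE: freeness of the two copies of `L(G)` in the von Neumann algebra of the double. -/
def S_FRE : Prop :=
  ∀ (G : Type) [Group G] (K : Subgroup G)
    (α : Fin 2 → (LG G).toStarSubalgebra →⋆ₐ[ℂ]
      (L2 (Monoid.PushoutI (fun _ : Fin 2 => K.subtype)) →L[ℂ]
        L2 (Monoid.PushoutI (fun _ : Fin 2 => K.subtype)))),
    (∀ i x, α i x ∈ LG (Monoid.PushoutI (fun _ : Fin 2 => K.subtype))) →
    (∀ i x, ∀ γ ∉ Set.range (Monoid.PushoutI.of (φ := fun _ : Fin 2 => K.subtype) i),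
      cf (α i x) γ = 0) →
    (∀ i x g, cf (α i x) (Monoid.PushoutI.of (φ := fun _ : Fin 2 => K.subtype) i g) = cf x.1 g) →
    ∀ (n : ℕ) (i : Fin (n + 1) → Fin 2) (a : Fin (n + 1) → (LG G).toStarSubalgebra),
      (∀ j : Fin n, i j.castSucc ≠ i j.succ) → (∀ j, ∀ k ∈ K, cf (a j).1 k = 0) →
      inner ℂ (dl 1) ((List.ofFn fun j => α (i j) (a j)).prod (dl 1)) = 0

/-- AHU: in every amalgamated free product of two copies of `L(G)` over `L(K)` the unitaries of the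
two copies of `G` generate the double of `G` over `K`, and the trace is the canonical one. -/
def S_AHU : Prop :=
  ∀ (G : Type) [Group G] (K : Subgroup G) (H : Type) [NormedAddCommGroup H]
    [InnerProductSpace ℂ H] [CompleteSpace H] (M : VonNeumannAlgebra H) (η : H)
    (π : Fin 2 → (LG G).toStarSubalgebra →⋆ₐ[ℂ] (H →L[ℂ] H)),
    IsAmalgFreeProd (LG G) (LK K) (dl (1 : G)) M η π →
    ∃ u : Monoid.PushoutI (fun _ : Fin 2 => K.subtype) →* unitary (H →L[ℂ] H),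
      (∀ γ, (u γ : H →L[ℂ] H) ∈ M) ∧ ∀ γ, γ ≠ 1 → inner ℂ η ((u γ : H →L[ℂ] H) η) = 0

end

end Pool.Agent.N557.QW
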